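import Pool.Agent.Lib.DS.D.Brg

/-!
# Theorem DS (all imaginary quadratic fields), part D: Legendre's coordinate at all primes not above two (helper46)
-/

set_option autoImplicit false

open scoped Pointwise nonZeroDivisors

noncomputable section

namespace Pool.Agent.DS

open Pool.Agent.MuZ Pool.Agent.FW Pool.Agent.DN NumberField IsDedekindDomain
open Pool.Agent.DI (io ofC io_inj exists_io io_ofC ofC_io VP MP UP TP ex)

variable [Fact S_VLeg]

section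

variable {n t : ℕ} [SqN n t] {Q : Ideal ZZ} {V : ValuationSubring ℂ}

theorem leO_eq (b : Ideal (OO n t)) (T T' z : ℂ) :
    leO b T T' z = ofC (xx b (wpC b T) (wpC b T' - wpC b T) z) := rfl

theorem io_leO {b : Ideal (OO n t)} (hb : b ≠ ⊥) {T T' : ℂ} (h : Ord2 b T T') {z : ℂ} (hz : Tor n t z)
    (hzb : z ∉ Lam b) : io (leO b T T' z) = xx b (wpC b T) (wpC b T' - wpC b T) z := by
  rw [leO_eq]
  exact io_ofC _ ((sRL : S_RL) n t b hb T T' h z hz hzb)

theorem _root_.Pool.Agent.DN.Ord2.trsS {b : Ideal (OO n t)} (hb : b ≠ ⊥) {T T' : ℂ} (h : Ord2 b T T') :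
    Tor n t T ∧ Tor n t T' ∧ Tor n t (T + T') := by
  have k : ∀ U : ℂ, 2 * U ∈ Lam b → Tor n t U := fun U hU =>
    (tor_iff hb).2 ⟨2, two_pos, by exact_mod_cast hU⟩
  exact ⟨k T h.t1, k T' h.t3, k _ h.t7⟩

theorem _root_.Pool.Agent.DN.VQ.ilS (hV : VQ Q V) {b : Ideal (OO n t)} (hb : b ≠ ⊥) {T T' : ℂ} (h : Ord2 b T T') {z : ℂ} :
    IL Q b T T' z ↔ Tor n t z ∧
      Kr V.valuation (Lam b) (xx b (wpC b T) (wpC b T' - wpC b T)) z := by
  unfold IL Kr
  constructor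
  · rintro ⟨h1, h2⟩
    refine ⟨h1, ?_⟩
    by_cases h3 : z ∈ Lam b
    · exact Or.inl h3
    · right
      rw [← io_leO hb h h1 h3]
      exact (hV.gt _).2 (h2.resolve_left h3)
  · rintro ⟨h1, h2⟩
    refine ⟨h1, ?_⟩
    by_cases h3 : z ∈ Lam b
    · exact Or.inl h3
    · right
      have h4 := h2.resolve_left h3
      rw [← io_leO hb h h1 h3] at h4
      exact (hV.gt _).1 h4

end

theorem sLgK : S_LgK := by
  intro n t _ Q hQ h2 b hb T T' hT
  obtain ⟨V, hV⟩ := exists_VQ hQ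
  have hv := hV.two hQ h2
  haveI := hQ.1
  obtain ⟨hg, l1, l2⟩ := vLeg n t _ V.valuation hv b hb T T' hT
  have hK := sVCrd n t _ V.valuation b _ _ hb hg.toICd
  obtain ⟨t1, t2, t3⟩ := hT.trsS hb
  have hs := hg.ne
  have hnot : ∀ z : ℂ, Tor n t z → ¬ IL Q b T T' z →
      ¬ Kr V.valuation (Lam b) (xx b (wpC b T) (wpC b T' - wpC b T)) z := fun z hz hn hk =>
    hn ((hV.ilS hb hT).2 ⟨hz, hk⟩)
  refine ⟨⟨(sub_ne_zero.1 hs), fun z hz hzb => io_leO hb hT hz hzb⟩, ⟨?_, ?_, ?_, ?_⟩, ⟨?_, ?_, ?_, ?_⟩,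
    ?_, ?_, ?_, ?_, ?_, ?_, ?_⟩
  · apply io_inj
    rw [io_leO hb hT t1 hT.t2, map_zero]
    unfold xx
    simp
  · apply io_inj
    rw [io_leO hb hT t2 hT.t4, map_one]
    unfold xx
    exact div_self hs
  · rw [← hV.eq, io_leO hb hT t3 hT.t6]
    exact l1
  · rw [← hV.eq, map_sub, map_one, io_leO hb hT t3 hT.t6]
    exact l2
  · intro z z' hz hz'
    rw [hV.ilS hb hT] at hz hz' ⊢
    exact ⟨tor_add hz.1 hz'.1, hK.kr_add hz.2 hz'.2⟩
  · intro z hz
    rw [hV.ilS hb hT] at hz ⊢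
    exact ⟨tor_neg hz.1, hK.kr_neg hz.2⟩
  · intro z hz
    exact ⟨tor_lam hb hz, Or.inl hz⟩
  · intro v z hz
    rw [hV.ilS hb hT] at hz ⊢
    exact ⟨tor_mul v hz.1, kr_mul hv hb hg v hz.2⟩
  · intro a ha ha2
    have hu := hT.up ha hb ha2
    have hab : a * b ≠ ⊥ := mul_ne_zero ha hb
    refine ⟨hu, fun z hz => ?_⟩
    obtain ⟨hg', -, -⟩ := vLeg n t _ V.valuation hv (a * b) hab T T' hu
    rw [hV.ilS hb hT] at hz
    rw [hV.ilS hab hu]
    exact ⟨hz.1, kr_up hv ha hb ha2 hg hg' hT hz.2⟩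
  · intro z hz α β hα hαβ
    rw [hV.ilS hb hT] at hz
    rw [toC_mul, mul_assoc] at hαβ
    exact kr_unit hv hb hg (Nm α).toNat α _ (by rw [Int.toNat_of_nonneg (Nm_nonneg α)]) (hV.tc hQ hα)
      (kr_mul hv hb hg β hz.2) hαβ
  · intro z z' hz hzn hz'
    have hz'' := (hV.ilS hb hT).1 hz'
    have hk := hnot z hz hzn
    have z1 : z ∉ Lam b := fun h => hk (Or.inl h)
    have z2 : z + z' ∉ Lam b := by
      intro h
      apply hk
      have := hK.kr_sub (Or.inl h : Kr V.valuation (Lam b) (xx b (wpC b T) (wpC b T' - wpC b T)) (z + z')) hz''.2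
      rwa [add_sub_cancel_right] at this
    rw [← hV.lt, map_sub, io_leO hb hT hz z1, io_leO hb hT (tor_add hz hz''.1) z2]
    exact hK.red hk hz''.2
  · intro z z' hz hz' hzn hzn' hm
    have hk := hnot z hz hzn
    have hk' := hnot z' hz' hzn'
    have z1 : z ∉ Lam b := fun h => hk (Or.inl h)
    have z2 : z' ∉ Lam b := fun h => hk' (Or.inl h)
    rw [← hV.lt, map_sub, io_leO hb hT hz z1, io_leO hb hT hz' z2] at hm
    rw [hV.ilS hb hT, hV.ilS hb hT]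
    rcases hK.sep hg.ds hk hk' hm with h | h
    · exact Or.inl ⟨tor_add hz hz', h⟩
    · exact Or.inr ⟨tor_sub hz hz', h⟩
  · intro T₁ T₁' h₁ z
    obtain ⟨hg', -, -⟩ := vLeg n t _ V.valuation hv b hb T₁ T₁' h₁
    rw [hV.ilS hb hT, hV.ilS hb h₁, (kr_indep hv hb hg hg').2.2 z]
  · intro z z' h
    unfold leO
    rw [wpC_congr' hb h]
  · intro z z' hz hz' h1 h2' he
    have h3 := congrArg io he
    rw [io_leO hb hT hz h1, io_leO hb hT hz' h2'] at h3
    have h4 : wpC b z = wpC b z' := by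
      unfold xx at h3
      field_simp at h3
      linear_combination h3
    exact ((aB1 n t b hb).2.2.2.1 z z' h1 h2').1 h4

theorem sLeg : S_Leg := by
  intro n t _ Q hQ h2 b hb T T' h1 h1' h3 h3' h5 δ hδ hδQ z z' hz hz' hzb hzb'
  have hT : Ord2 b T T' := ⟨h1, h1', h3, h3', h5⟩
  obtain ⟨L1, L2, L3, L4, L5, L6, L7, L8, L9, L10⟩ := sLgK n t Q hQ h2 b hb T T' hT
  obtain ⟨α, hα, hαQ⟩ : ∃ α ∈ δ, ¬ MP Q (toO α) := by
    by_contra hc
    apply hδQ
    intro α hα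
    by_contra h
    exact hc ⟨α, hα, h⟩
  have hδb : ∀ {y : ℂ}, y ∈ Lam (δ * b) → IL Q b T T' y → y ∈ Lam b := by
    intro y hy hk
    have := L5 y hk α 1 hαQ (by
      rw [mul_one]
      exact lam_prod.1 hy α hα)
    rwa [toC_one, one_mul] at this
  have htor : ∀ {y : ℂ}, y ∈ Lam (δ * b) → Tor n t y := fun hy => tor_lam (mul_ne_zero hδ hb) hy
  have hn : ∀ {y : ℂ}, y ∈ Lam (δ * b) → y ∉ Lam b → ¬ IL Q b T T' y := fun hy hyb hk => hyb (hδb hy hk)
  refine ⟨?_, fun hm => ?_⟩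
  · by_contra hc
    exact hn hz hzb ⟨htor hz, Or.inr hc⟩
  · rcases L7 z z' (htor hz) (htor hz') (hn hz hzb) (hn hz' hzb') hm with h | h
    · exact Or.inr (hδb (lam_add hz hz') h)
    · exact Or.inl (hδb (lam_sub hz hz') h)

theorem sLgT (R1 : S_R1) : S_LgT := by
  intro n t _ b hG T T' hT z u hz hu hzb hub
  have hb := hG.ne
  obtain ⟨r1, r3, rx, -⟩ := (R1.1 n t).1 b hG
  obtain ⟨t1, t2, t3⟩ := hT.trsS hb
  obtain ⟨hf, -⟩ := (aB1 n t b hb).2.2.2.2.2 hG.cop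
  have hs : wpC b T' - wpC b T ≠ 0 := sub_ne_zero.2 (hT.g hb).2.1.symm
  have hcrv := ((aB2 n t b hb u hub).2 hG.cop).1
  have B4 := (aB4 n t b hb T T' hT.t1 hT.t2 hT.t3 hT.t4 hT.t5).2.2.1 u hub
  apply io_inj
  have l1 : io (W2 b u) = wdC b u ^ 2 / fr b ^ 6 := by
    unfold W2
    rw [map_add, map_mul, map_pow, map_pow, map_add, map_mul, map_ofNat, r1, r3, (rx u hu).1, ← hcrv]
    unfold WC
    field_simp
  rw [map_mul, map_inv₀, map_pow, map_sub, l1, (rx z hz).1, (rx u hu).1]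
  rw [map_mul, map_mul, map_mul, map_mul, map_inv₀, map_pow, map_sub, map_sub, map_sub, map_ofNat, map_one,
    io_leO hb hT hz hzb, io_leO hb hT hu hub, io_leO hb hT t3 hT.t6]
  rw [B4]
  have e1 : (XC b z - XC b u) ^ 3 = (wpC b z - wpC b u) ^ 3 / fr b ^ 6 := by
    unfold XC
    field_simp
    ring
  have e2 : (xx b (wpC b T) (wpC b T' - wpC b T) z - xx b (wpC b T) (wpC b T' - wpC b T) u) ^ 3 =
      (wpC b z - wpC b u) ^ 3 / (wpC b T' - wpC b T) ^ 3 := by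
    unfold xx
    field_simp
    ring
  rw [e1, e2, inv_div, inv_div]
  unfold xx
  by_cases h0 : wpC b z - wpC b u = 0
  · rw [h0]
    simp
  · field_simp
    ring

end Pool.Agent.DS
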