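import Pool.Agent.Lib.DS.IfaceD
import Pool.Agent.Lib.DN.D.AuxK

/-!
# Theorem DS (all imaginary quadratic fields), part D: auxiliary lemmas (port of `DN/D/AuxK.lean`, helper58)
-/

set_option autoImplicit false

open scoped Pointwise nonZeroDivisors

noncomputable section

namespace Pool.Agent.DS

open Pool.Agent.MuZ Pool.Agent.FW Pool.Agent.DN NumberField IsDedekindDomain
open Pool.Agent.DI (io ofC io_inj exists_io io_ofC ofC_io VP MP UP TP ex)

variable {n t : ℕ}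

/-- Points of order two exist . -/
theorem exists_ord2 [SqN n t] (hL3 : S_L3) {b : Ideal (OO n t)} (hb : b ≠ ⊥) : ∃ T T' : ℂ, Ord2 b T T' := by
  have h20 : sp (2 : OO n t) ≠ ⊥ := by
    refine Eb.ne_sp ?_
    have := Eb.nat_ne (n := n) (t := t) (N := 2) (by norm_num)
    exact_mod_cast this
  obtain ⟨⟨g, hg, hg'⟩, h2, -⟩ := hL3 n t (sp 2) b h20 hb
  obtain ⟨h3, -⟩ := h2 g hg hg'
  have hnd : ∀ v : OO n t, ¬ (2 : ℤ) ∣ v.re ∨ ¬ (2 : ℤ) ∣ v.im → toC v * g ∉ Lam b := by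
    intro v hv h4
    have h5 := (h3 v).1 h4
    rw [Ideal.mem_span_singleton] at h5
    have h6 := (nat_dvd_iff 2 v).1 (by exact_mod_cast h5)
    rcases hv with h | h
    · exact h (by exact_mod_cast h6.1)
    · exact h (by exact_mod_cast h6.2)
  have hd2 : ∀ v : OO n t, 2 * (toC v * g) ∈ Lam b := by
    intro v
    have h4 : toC (2 * v) * g ∈ Lam b := (h3 (2 * v)).2 (Ideal.mem_span_singleton.2 ⟨v, rfl⟩)
    rw [toC_mul, toC_two] at h4
    rw [← mul_assoc]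
    exact h4
  refine ⟨toC (1 : OO n t) * g, toC (wI n t) * g, hd2 1, hnd 1 (Or.inl ?_), hd2 _, hnd _ (Or.inr ?_), ?_⟩
  · rw [re_one]
    norm_num
  · change ¬ (2 : ℤ) ∣ 1
    norm_num
  · rw [← sub_mul, ← toC_sub]
    refine hnd _ (Or.inl ?_)
    rw [QuadraticAlgebra.re_sub, re_one]
    change ¬ (2 : ℤ) ∣ 1 - 0
    norm_num

/-- Every point of order two is in a pair. -/
theorem exists_ord2' [SqN n t] (hL3 : S_L3) {b : Ideal (OO n t)} (hb : b ≠ ⊥) {T : ℂ} (h2 : 2 * T ∈ Lam b)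
    (hT : T ∉ Lam b) : ∃ T' : ℂ, Ord2 b T T' := by
  obtain ⟨T0, T0', h⟩ := exists_ord2 hL3 hb
  by_cases h1 : T - T0 ∈ Lam b
  · refine ⟨T0', h2, hT, h.t3, h.t4, fun h3 => h.t5 ?_⟩
    have h4 := lam_sub h3 h1
    have e : T - T0' - (T - T0) = T0 - T0' := by ring
    rwa [e] at h4
  · exact ⟨T0, h2, hT, h.t1, h.t2, h1⟩

/-! ## The kernel of reduction -/

section Ker

variable [SqN n t] {Q : Ideal ZZ} {b : Ideal (OO n t)}

theorem IK.neg (hX : XOm b) {z : ℂ} (h : IK Q b z) : IK Q b (-z) := by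
  refine ⟨tor_neg h.1, ?_⟩
  rcases h.2 with h1 | h1
  · exact Or.inl (lam_neg h1)
  · right
    rwa [(hX.neg z h.1).1]

theorem IK.add (hD1 : S_D1) (hQ : GQ n t Q) (hb : G15 b) {z z' : ℂ} (h : IK Q b z) (h' : IK Q b z') :
    IK Q b (z + z') := (hD1 n t Q hQ b hb).1 z z' h h'

theorem IK.sub (hD1 : S_D1) (hX : XOm b) (hQ : GQ n t Q) (hb : G15 b) {z z' : ℂ} (h : IK Q b z)
    (h' : IK Q b z') : IK Q b (z - z') := by
  rw [sub_eq_add_neg]
  exact IK.add hD1 hQ hb h (IK.neg hX h')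

theorem IK.lam (hD1 : S_D1) (hQ : GQ n t Q) (hb : G15 b) {z : ℂ} (h : z ∈ Lam b) : IK Q b z :=
  (hD1 n t Q hQ b hb).2.1 z h

theorem IK.mul (hD1 : S_D1) (hQ : GQ n t Q) (hb : G15 b) (v : OO n t) {z : ℂ} (h : IK Q b z) :
    IK Q b (toC v * z) := (hD1 n t Q hQ b hb).2.2.1 v z h

theorem IK.two (hD1 : S_D1) (hQ : GQ n t Q) (hb : G15 b) {z : ℂ} (h : IK Q b z) : IK Q b (2 * z) := by
  have h1 := IK.mul hD1 hQ hb (2 : OO n t) h
  rwa [toC_two] at h1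

theorem IK.qp (hD1 : S_D1) (hQ : GQ n t Q) (hb : G15 b) {z : ℂ} (h : IK Q b z) : Qp Q b z :=
  (hD1 n t Q hQ b hb).2.2.2.2.1 z h

theorem IK.red (hD1 : S_D1) (hQ : GQ n t Q) (hb : G15 b) {z z' : ℂ} (hz : Tor n t z) (h : ¬ IK Q b z)
    (h' : IK Q b z') : MP Q (xO b (z + z') - xO b z) := (hD1 n t Q hQ b hb).2.2.2.2.2.1 z z' hz h h'

/-- Translation by the kernel: not in the kernel. -/
theorem IK.not_add (hD1 : S_D1) (hX : XOm b) (hQ : GQ n t Q) (hb : G15 b) {z z' : ℂ} (h : ¬ IK Q b z)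
    (h' : IK Q b z') : ¬ IK Q b (z + z') := by
  intro h1
  have h2 := IK.sub hD1 hX hQ hb h1 h'
  rw [add_sub_cancel_right] at h2
  exact h h2

/-- Separation: a unit. `z`, `z'` not in the kernel, `z ± z'` not in the kernel. -/
theorem IK.sep (hD1 : S_D1) (hQ : GQ n t Q) (hb : G15 b) {z z' : ℂ} (hz : Tor n t z) (hz' : Tor n t z')
    (h : ¬ IK Q b z) (h' : ¬ IK Q b z') (h1 : ¬ IK Q b (z + z')) (h2 : ¬ IK Q b (z - z')) :
    UP Q (xO b z - xO b z') := by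
  have : Q.IsPrime := hQ.1.1
  have hv : ∀ y : ℂ, Tor n t y → ¬ IK Q b y → VP Q (xO b y) := by
    intro y hy hy'
    by_contra h3
    exact hy' ⟨hy, Or.inr h3⟩
  refine ⟨(hv z hz h).sub (hv z' hz' h'), fun h3 => ?_⟩
  rcases (hD1 n t Q hQ b hb).2.2.2.2.2.2 z z' hz hz' h h' h3 with h4 | h4
  · exact h1 h4
  · exact h2 h4

theorem IK.vp {z : ℂ} (hz : Tor n t z) (h : ¬ IK Q b z) : VP Q (xO b z) := by
  by_contra h3
  exact h ⟨hz, Or.inr h3⟩

theorem IK.not_lam (hD1 : S_D1) (hQ : GQ n t Q) (hb : G15 b) {z : ℂ} (h : ¬ IK Q b z) : z ∉ Lam b :=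
  fun h1 => h (IK.lam hD1 hQ hb h1)

/-- A point of order `α` with `α` a unit at `Q` is not in the kernel. -/
theorem IK.not_of_unit (hD1 : S_D1) (hQ : GQ n t Q) (hb : G15 b) {z : ℂ} {α : OO n t}
    (hα : ¬ MP Q (toO α)) (h : toC α * z ∈ Lam b) (hz : z ∉ Lam b) : ¬ IK Q b z := by
  intro h1
  have h2 := IK.qp hD1 hQ hb h1 α 1 hα (by rw [mul_one]; exact h)
  rw [toC_one, one_mul] at h2
  exact hz h2

theorem IK.not_of_nat (hD1 : S_D1) (hQ : GQ n t Q) (hb : G15 b) {z : ℂ} {N : ℕ}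
    (hN : ¬ MP Q (N : Om)) (h : (N : ℂ) * z ∈ Lam b) (hz : z ∉ Lam b) : ¬ IK Q b z := by
  refine IK.not_of_unit hD1 hQ hb (α := (N : OO n t)) ?_ ?_ hz
  · rw [toO_nat]
    exact hN
  · rw [toC_nat]
    exact h

/-- Points of odd order: if twice the point is in the kernel then the point is. -/
theorem IK.of_two (hD1 : S_D1) (hQ : GQ n t Q) (hb : G15 b) {a : Ideal (OO n t)} (ha : PrI a 2) {u : ℂ}
    (hu : u ∈ Lam (a * b)) (h : IK Q b (2 * u)) : IK Q b u := by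
  obtain ⟨v, hv, w, e⟩ := pri_split ha
  have h1 : IK Q b (toC v * u) := IK.lam hD1 hQ hb (lam_prod.1 hu v hv)
  have h2 := IK.mul hD1 hQ hb w h
  have h3 := IK.add hD1 hQ hb h1 h2
  have h4 := congrArg toC e
  rw [toC_add, toC_mul, toC_nat, toC_one] at h4
  push_cast at h4
  have e5 : toC v * u + toC w * (2 * u) = u := by linear_combination u * h4
  rwa [e5] at h3

/-- If the point is killed by an ideal which is not below `Q` then it is not in the kernel. -/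
theorem IK.not_of_abv (hD1 : S_D1) (hQ : GQ n t Q) (hb : G15 b) {a : Ideal (OO n t)} (ha : ¬ Abv Q a) {u : ℂ}
    (hu : u ∈ Lam (a * b)) (hu' : u ∉ Lam b) : ¬ IK Q b u := by
  unfold Abv at ha
  push Not at ha
  obtain ⟨v, hv, hv'⟩ := ha
  exact IK.not_of_unit hD1 hQ hb hv' (lam_prod.1 hu v hv) hu'

end Ker

end Pool.Agent.DS
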