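import Pool.Agent.Lib.DS.D.SpecK
import Pool.Agent.Lib.DN.O.All

/-!
# Theorem DS (all imaginary quadratic fields), part D: Kronecker's congruence up to a constant
-/

set_option autoImplicit false

open scoped Pointwise nonZeroDivisors

noncomputable section

namespace Pool.Agent.DS

open Pool.Agent.MuZ Pool.Agent.FW Pool.Agent.DN NumberField IsDedekindDomain
open Pool.Agent.DI (io ofC io_inj exists_io io_ofC ofC_io VP MP UP TP ex)

variable {n t : ℕ}

/-- A product of factors congruent to `c`. -/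
private theorem D3b_prod {P : Ideal ZZ} [hP : P.IsPrime] {c : Om} (hc : VP P c) (R : Finset ℂ)
    (f : ℂ → Om) (h : ∀ u ∈ R, MP P (f u - c)) :
    VP P (∏ u ∈ R, f u) ∧ MP P (∏ u ∈ R, f u - c ^ R.card) := by
  classical
  induction R using Finset.induction_on with
  | empty =>
    rw [Finset.prod_empty, Finset.card_empty, pow_zero, sub_self]
    exact ⟨DI.VP.one, DI.MP.zero⟩
  | insert a s ha ih =>
    obtain ⟨h1, h2⟩ := ih fun u hu => h u (Finset.mem_insert_of_mem hu)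
    have h3 := h a (Finset.mem_insert_self a s)
    have h4 : VP P (f a) := by
      have h5 := h3.vp.add hc
      rwa [sub_add_cancel] at h5
    rw [Finset.prod_insert ha, Finset.card_insert_of_notMem ha]
    refine ⟨h4.mul h1, ?_⟩
    have e : f a * ∏ u ∈ s, f u - c ^ (s.card + 1) =
        (f a - c) * ∏ u ∈ s, f u + c * (∏ u ∈ s, f u - c ^ s.card) := by
      ring
    rw [e]
    exact (DI.MP.mul_right h3 h1).add (DI.MP.mul_left hc h2)

/-- The congruences for a point of order two. -/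
private theorem D3b_T (hX : S_XOm) (hD1 : S_D1) (hFer : S_Fer) (hPrC : S_PrC) (hLaU : S_LaU)
    (hD3a : S_D3a) [SqN n t] {q : Ideal (OO n t)} {l : ℕ} (hq : Deg1 q l) (hl : l.Coprime 30)
    {Q : Ideal ZZ} (hQ : GQ n t Q) (hA : Abv Q q) {b : Ideal (OO n t)} (hb : G15 b) {T T' : ℂ}
    (hT : Ord2 b T T') :
    MP Q (xO b T ^ l - a3O b ^ l * (a3O (q * b))⁻¹ * xO (q * b) T) ∧
      ∀ z : ℂ, Tor n t z → ¬ IK Q b z → ¬ IK Q (q * b) z ∧
        MP Q (xO b z ^ l - a3O b ^ l * (a3O (q * b))⁻¹ * xO (q * b) z) := by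
  have hP : Q.IsPrime := hQ.1.1
  obtain ⟨-, F2, -, -, -, h2, h3, h5, hq2, hq15⟩ := hFer n t q l hq hl Q hQ.1 hA
  have hq0 : q ≠ ⊥ := hq.2.1
  have hqb : G15 (q * b) := g15_mul' hq0 hq15 hb
  have hker := hD3a n t q l hq hl Q hQ hA b hb
  obtain ⟨R, hR, hRc⟩ := (aL3 n t q b hq0 hb.ne).2.2
  have hRl : R.card = l := by rw [hRc, hq.2.2.2]
  obtain ⟨C, -, -, hCz, -, hT', hCU⟩ := hPrC n t q b hq0 hb hq2 hq15 R hR T T' hT
  have hC := hCU Q hQ h2
  have vT := ((hLaU n t b hb Q hQ h2).1 T T' hT).1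
  have vT' := ((hLaU n t (q * b) hqb Q hQ h2).1 T T' hT').1
  -- the congruence (*)
  have hst : ∀ z : ℂ, Tor n t z → ¬ IK Q b z → z ∉ Lam (q * b) ∧ VP Q (xO (q * b) z) ∧
      MP Q (C * (xO (q * b) z - xO (q * b) T) - (xO b z ^ l - xO b T ^ l)) := by
    intro z hz h
    have h1 : z ∉ Lam (q * b) := fun h1 => h (hker z h1)
    have vz : VP Q (xO b z) := IK.vp hz h
    obtain ⟨h6, h7⟩ := D3b_prod (c := xO b z - xO b T) (vz.sub vT) R
      (fun u => xO b (z + u) - xO b T) (fun u hu => by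
        have e : xO b (z + u) - xO b T - (xO b z - xO b T) = xO b (z + u) - xO b z := by ring
        rw [e]
        exact IK.red hD1 hQ hb hz h (hker u (hR.mem u hu)))
    rw [hCz z hz h1] at h6 h7
    rw [hRl] at h7
    have h8 := (F2 (xO b z) (xO b T) vz vT).2.1
    refine ⟨h1, ?_, ?_⟩
    · have h9 := hC.inv.1.mul h6
      rw [inv_mul_cancel_left₀ hC.ne_zero] at h9
      have h10 := h9.add vT'
      rwa [sub_add_cancel] at h10
    · have h9 := h7.add h8
      have e : C * (xO (q * b) z - xO (q * b) T) - (xO b z - xO b T) ^ l +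
          ((xO b z - xO b T) ^ l - (xO b z ^ l - xO b T ^ l)) =
          C * (xO (q * b) z - xO (q * b) T) - (xO b z ^ l - xO b T ^ l) := by ring
      rwa [e] at h9
  have t5 : Tor n t (1 / 5) := by
    have := tor_nat_div (n := n) (t := t) (N := 5) (by norm_num)
    push_cast at this
    exact this
  have t3 : Tor n t (1 / 3) := by
    have := tor_nat_div (n := n) (t := t) (N := 3) (by norm_num)
    push_cast at this
    exact this
  have i3 : ¬ IK Q b (1 / 3) := by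
    refine IK.not_of_nat hD1 hQ hb (N := 3) ?_ ?_ (third_lam hb)
    · rw [Nat.cast_ofNat]
      exact h3
    · have h := one_div_lam b (N := 3) (by norm_num)
      push_cast at h ⊢
      exact h
  have i5 : ¬ IK Q b (1 / 5) := by
    refine IK.not_of_nat hD1 hQ hb (N := 5) ?_ ?_ (fifth_lam hb)
    · rw [Nat.cast_ofNat]
      exact h5
    · have h := one_div_lam b (N := 5) (by norm_num)
      push_cast at h ⊢
      exact h
  have hl0 : l ≠ 0 := hq.2.2.1.ne_zero
  -- the point of order two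
  have E1 : MP Q (xO b T ^ l - C * xO (q * b) T) := by
    obtain ⟨-, -, h6⟩ := hst (1 / 3) t3 i3
    rw [(hX n t b hb).x3, (hX n t (q * b) hqb).x3, zero_pow hl0] at h6
    have e : C * (0 - xO (q * b) T) - (0 - xO b T ^ l) = xO b T ^ l - C * xO (q * b) T := by ring
    rwa [e] at h6
  have E2 : ∀ z : ℂ, Tor n t z → ¬ IK Q b z → MP Q (xO b z ^ l - C * xO (q * b) z) := by
    intro z hz h
    obtain ⟨-, -, h6⟩ := hst z hz h
    have h7 := E1.sub h6
    have e : xO b T ^ l - C * xO (q * b) T -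
        (C * (xO (q * b) z - xO (q * b) T) - (xO b z ^ l - xO b T ^ l)) =
        xO b z ^ l - C * xO (q * b) z := by ring
    rwa [e] at h7
  have hA3 : UP Q (a3O (q * b)) := (hQ.2 (q * b) hqb).2.1
  have hA0 : a3O (q * b) ≠ 0 := hA3.ne_zero
  have E3 : MP Q (a3O b ^ l * (a3O (q * b))⁻¹ - C) := by
    have h6 := E2 (1 / 5) t5 i5
    rw [(hX n t b hb).x5, (hX n t (q * b) hqb).x5] at h6
    have h7 := DI.MP.mul_right h6 hA3.inv.1
    have e : (a3O b ^ l - C * a3O (q * b)) * (a3O (q * b))⁻¹ =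
        a3O b ^ l * (a3O (q * b))⁻¹ - C := by
      rw [sub_mul, mul_assoc C, mul_inv_cancel₀ hA0, mul_one]
    rwa [e] at h7
  refine ⟨?_, ?_⟩
  · have e : xO b T ^ l - a3O b ^ l * (a3O (q * b))⁻¹ * xO (q * b) T =
        (xO b T ^ l - C * xO (q * b) T) - (a3O b ^ l * (a3O (q * b))⁻¹ - C) * xO (q * b) T := by
      ring
    rw [e]
    exact E1.sub (DI.MP.mul_right E3 vT')
  · intro z hz h
    obtain ⟨h6, h7, -⟩ := hst z hz h
    refine ⟨?_, ?_⟩
    · rintro ⟨-, h9 | h9⟩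
      · exact h6 h9
      · exact h9 h7
    · have e : xO b z ^ l - a3O b ^ l * (a3O (q * b))⁻¹ * xO (q * b) z =
          (xO b z ^ l - C * xO (q * b) z) - (a3O b ^ l * (a3O (q * b))⁻¹ - C) * xO (q * b) z := by
        ring
      rw [e]
      exact (E2 z hz h).sub (DI.MP.mul_right E3 h7)

theorem sD3b (hX : S_XOm) (hD1 : S_D1) (hFer : S_Fer) (hPrC : S_PrC) (hLaU : S_LaU)
    (hD3a : S_D3a) : S_D3b := by
  intro n t _ q l hq hl Q hQ hA b hb
  have hP : Q.IsPrime := hQ.1.1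
  obtain ⟨-, -, -, -, -, -, -, -, -, hq15⟩ := hFer n t q l hq hl Q hQ.1 hA
  have hqb : G15 (q * b) := g15_mul' hq.2.1 hq15 hb
  have hA3 : UP Q (a3O (q * b)) := (hQ.2 (q * b) hqb).2.1
  have hA3b : UP Q (a3O b) := (hQ.2 b hb).2.1
  have hA0 : a3O (q * b) ≠ 0 := hA3.ne_zero
  obtain ⟨T, T', hT⟩ := exists_ord2 aL3 hb.ne
  refine ⟨a3O b ^ l * (a3O (q * b))⁻¹, (hA3b.pow l).mul hA3.inv, ?_, ?_, ?_⟩
  · rw [mul_assoc, inv_mul_cancel₀ hA0, mul_one, sub_self]
    exact DI.MP.zero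
  · intro T T' hT
    exact (D3b_T hX hD1 hFer hPrC hLaU hD3a hq hl hQ hA hb hT).1
  · exact (D3b_T hX hD1 hFer hPrC hLaU hD3a hq hl hQ hA hb hT).2

end Pool.Agent.DS
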