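import Pool.Agent.Lib.DS.D.SpecK

/-!
# Theorem DS (all imaginary quadratic fields), part D: `W(z)` is a unit if `2 z` is not in the kernel (helper58)

No supersingularity is used: if `W(z)` is in the maximal ideal then the numerator of the duplication formula is a unit.
-/

set_option autoImplicit false

open scoped Pointwise nonZeroDivisors

noncomputable section

namespace Pool.Agent.DS

open Pool.Agent.MuZ Pool.Agent.FW Pool.Agent.DN NumberField IsDedekindDomain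
open Pool.Agent.DI (io ofC io_inj exists_io io_ofC ofC_io VP MP UP TP ex)

variable {n t : ℕ}

/-- A prime above `2` is not above `15`. -/
theorem not15 {P : Ideal ZZ} (h : Ab2 P) : ¬ MP P 15 := by
  have hP : P.IsPrime := h.1.1
  intro h1
  have h2 : MP P ((7 : ℕ) * (2 : Om)) := h.2.mul_left (DI.VP.nat 7)
  have h3 := h1.sub h2
  refine DI.MP.one_not (P := P) ?_
  have e : (15 : Om) - (7 : ℕ) * 2 = 1 := by norm_num
  rwa [e] at h3

/-- `W(z)` is in the valuation ring, `z` not in the kernel. -/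
theorem vpW [SqN n t] {Q : Ideal ZZ} {b : Ideal (OO n t)} (hX : XOm b) (hD1 : S_D1) (hQ : GQ n t Q)
    (hb : G15 b) {z : ℂ} (hz : Tor n t z) (h : ¬ IK Q b z) : VP Q (vO b z) := by
  have hP : Q.IsPrime := hQ.1.1
  obtain ⟨v1, v3, -⟩ := hQ.2 b hb
  have hx := IK.vp hz h
  refine DI.VP.of_pow (n := 2) (by norm_num) ?_
  rw [hX.crv z hz (IK.not_lam hD1 hQ hb h)]
  have h4 : VP Q (4 : Om) := by exact_mod_cast DI.VP.nat 4
  exact (h4.mul (hx.pow 3)).add (((v1.mul hx).add v3.1).pow 2)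

/-- `W(z)` is a unit, `2 z` not in the kernel. -/
theorem wU [SqN n t] {Q : Ideal ZZ} {b : Ideal (OO n t)} (hX : XOm b) (hD1 : S_D1) (hQ : GQ n t Q)
    (hb : G15 b) {z : ℂ} (hz : Tor n t z) (h : ¬ IK Q b (2 * z)) : ¬ IK Q b z ∧ UP Q (vO b z) := by
  have hP : Q.IsPrime := hQ.1.1
  have h1 : ¬ IK Q b z := fun h3 => h (IK.two hD1 hQ hb h3)
  refine ⟨h1, vpW hX hD1 hQ hb hz h1, fun hm => ?_⟩
  obtain ⟨v1, v3, v13⟩ := hQ.2 b hb
  have hx := IK.vp hz h1
  have hx2 := IK.vp (tor_two hz) h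
  have h2l := IK.not_lam hD1 hQ hb h
  have hG := hX.crv z hz (IK.not_lam hD1 hQ hb h1)
  have hF := hX.dup z hz h2l
  have hG2 : MP Q (vO b z ^ 2) := by
    rw [pow_two]
    exact hm.mul_left hm.vp
  have hF2 : MP Q (xO b (2 * z) * vO b z ^ 2) := hG2.mul_left hx2
  have n1 : VP Q (48 * xO b z ^ 2 + 8 * a1O b ^ 2 * xO b z + 32 * (a1O b * a3O b) - a1O b ^ 4) := by
    have a : VP Q (48 : Om) := by exact_mod_cast DI.VP.nat 48
    have c : VP Q (8 : Om) := by exact_mod_cast DI.VP.nat 8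
    have d : VP Q (32 : Om) := by exact_mod_cast DI.VP.nat 32
    exact (((a.mul (hx.pow 2)).add ((c.mul (v1.pow 2)).mul hx)).add (d.mul (v1.mul v3.1))).sub (v1.pow 4)
  have n2 : VP Q (12 * xO b z ^ 3 - a1O b ^ 2 * xO b z ^ 2 - 10 * (a1O b * a3O b) * xO b z +
      (a1O b ^ 3 * a3O b - 27 * a3O b ^ 2)) := by
    have a : VP Q (12 : Om) := by exact_mod_cast DI.VP.nat 12
    have c : VP Q (10 : Om) := by exact_mod_cast DI.VP.nat 10
    have d : VP Q (27 : Om) := by exact_mod_cast DI.VP.nat 27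
    exact (((a.mul (hx.pow 3)).sub ((v1.pow 2).mul (hx.pow 2))).sub ((c.mul (v1.mul v3.1)).mul hx)).add
      (((v1.pow 3).mul v3.1).sub (d.mul (v3.1.pow 2)))
  have h5 : MP Q (a3O b ^ 3 * (a1O b ^ 3 - 27 * a3O b)) := by
    have h6 := (hG2.mul_left n2).sub (hF2.mul_left n1)
    have e : a3O b ^ 3 * (a1O b ^ 3 - 27 * a3O b) =
        (12 * xO b z ^ 3 - a1O b ^ 2 * xO b z ^ 2 - 10 * (a1O b * a3O b) * xO b z +
          (a1O b ^ 3 * a3O b - 27 * a3O b ^ 2)) * vO b z ^ 2 -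
        (48 * xO b z ^ 2 + 8 * a1O b ^ 2 * xO b z + 32 * (a1O b * a3O b) - a1O b ^ 4) *
          (xO b (2 * z) * vO b z ^ 2) := by
      rw [hF, hG]
      ring
    rw [e]
    exact h6
  exact ((v3.pow 3).mul v13).2 h5

end Pool.Agent.DS
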