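import Pool.Agent.Lib.DS.D.ThL
import Pool.Agent.Lib.DS.D.WU
import Pool.Agent.Lib.DN.B.All

/-!
# Theorem DS (all imaginary quadratic fields), part D: theta units at all primes (module `D5`; author helper9)
-/

set_option autoImplicit false

open scoped Pointwise nonZeroDivisors

noncomputable section

namespace Pool.Agent.DS

open Pool.Agent.MuZ Pool.Agent.FW Pool.Agent.DN NumberField IsDedekindDomain
open Pool.Agent.DI (io ofC io_inj exists_io io_ofC ofC_io VP MP UP TP ex)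

/-- **Theta units, at all primes.** -/
theorem sD5 (hX : S_XOm) (hGQ : S_GQ) (hD1 : S_D1) (hThU : S_ThU) (hThL : S_ThL) :
    S_D5 := by
  intro n t _ m b hm hb hm2 _ Q hQ z hz hzu
  have hP : Q.IsPrime := hQ.1
  have hH := (aB14 n t m b hm hb.ne hm2).1
  unfold Theta
  refine DI.UP.prod _ _ fun u hu => DI.UP.pow ?_ 3
  obtain ⟨hu1, hu2⟩ := hH.mem u hu
  by_cases h2 : MP Q 2
  · have hAb : Ab2 Q := ⟨hQ, h2⟩
    have hGQ := hGQ n t Q hAb.1 (not15 hAb)
    obtain ⟨t1, t2, t3⟩ := hThU n t m b hm hb hm2 Q hGQ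
    have hIu := t1 (t2 h2) u hu1 hu2
    obtain ⟨-, -, -, t4⟩ := t3 z hz hzu
    have hU := (t4 u hu1).2 hu2 hIu
    have hTu : Tor n t u := tor_lam (Eb.ne_mul hm hb.ne) hu1
    have hW : W2 b u = vO b u ^ 2 := by
      rw [(hX n t b hb).crv u hTu hu2]
      rfl
    have hv : UP Q (vO b u) :=
      (wU (hX n t b hb) hD1 hGQ hb hTu fun h3 => hIu (IK.of_two hD1 hGQ hb hm2 hu1 h3)).2
    rw [hW]
    exact (hv.pow 2).mul (hU.pow 3).inv
  · exact hThL n t m b hm hb hm2 Q hQ h2 z hz hzu u hu1 hu2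

end Pool.Agent.DS
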