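import Pool.Agent.Lib.DS.D.ThU
import Pool.Agent.Lib.DN.B.All

/-!
# Theorem DS (all imaginary quadratic fields), part D: theta units, congruences at the good primes (module `D6`; author helper9, port of `DK/D/D6.lean`)
-/

set_option autoImplicit false

open scoped Pointwise

noncomputable section

namespace Pool.Agent.DS

open Pool.Agent.MuZ Pool.Agent.FW Pool.Agent.DN NumberField IsDedekindDomain
open Pool.Agent.DI (io ofC io_inj exists_io io_ofC ofC_io VP MP UP TP ex sqr sqr_sq kap)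

/-- `x'` is congruent to `x ^ l`. -/
private def D6_C (Q : Ideal ZZ) (l : ℕ) (x' x : Om) : Prop := VP Q x' ∧ VP Q x ∧ MP Q (x' - x ^ l)

private def D6_F (Q : Ideal ZZ) (l : ℕ) : Prop := ∀ x y : Om, VP Q x → VP Q y →
  MP Q ((x + y) ^ l - (x ^ l + y ^ l)) ∧ MP Q ((x - y) ^ l - (x ^ l - y ^ l))

section

variable {Q : Ideal ZZ} [hP : Q.IsPrime] {l : ℕ}

private theorem D6_mul {x' x y' y : Om} (hx : D6_C Q l x' x) (hy : D6_C Q l y' y) :
    D6_C Q l (x' * y') (x * y) := by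
  refine ⟨hx.1.mul hy.1, hx.2.1.mul hy.2.1, ?_⟩
  have e : x' * y' - (x * y) ^ l = (x' - x ^ l) * y' + x ^ l * (y' - y ^ l) := by
    rw [mul_pow]
    ring
  rw [e]
  exact (hx.2.2.mul_right hy.1).add (DI.MP.mul_left (hx.2.1.pow l) hy.2.2)

private theorem D6_sub (hF : D6_F Q l) {x' x y' y : Om} (hx : D6_C Q l x' x) (hy : D6_C Q l y' y) :
    D6_C Q l (x' - y') (x - y) := by
  refine ⟨hx.1.sub hy.1, hx.2.1.sub hy.2.1, ?_⟩
  have e : x' - y' - (x - y) ^ l =
      (x' - x ^ l) - (y' - y ^ l) - ((x - y) ^ l - (x ^ l - y ^ l)) := by ring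
  rw [e]
  exact (hx.2.2.sub hy.2.2).sub (hF x y hx.2.1 hy.2.1).2

private theorem D6_add (hF : D6_F Q l) {x' x y' y : Om} (hx : D6_C Q l x' x) (hy : D6_C Q l y' y) :
    D6_C Q l (x' + y') (x + y) := by
  refine ⟨hx.1.add hy.1, hx.2.1.add hy.2.1, ?_⟩
  have e : x' + y' - (x + y) ^ l =
      (x' - x ^ l) + (y' - y ^ l) - ((x + y) ^ l - (x ^ l + y ^ l)) := by ring
  rw [e]
  exact (hx.2.2.add hy.2.2).sub (hF x y hx.2.1 hy.2.1).1

private theorem D6_unit {x' x : Om} (hx : D6_C Q l x' x) (hU : UP Q x) : UP Q x' :=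
  (hU.pow l).congr hx.2.2

private theorem D6_inv {x' x : Om} (hx : D6_C Q l x' x) (hU : UP Q x) :
    D6_C Q l x'⁻¹ x⁻¹ := by
  have hU' := D6_unit hx hU
  refine ⟨hU'.inv.1, hU.inv.1, ?_⟩
  have e : x'⁻¹ - x⁻¹ ^ l = -(x' - x ^ l) * (x'⁻¹ * x⁻¹ ^ l) := by
    have h1 := hU'.ne_zero
    have h2 := hU.ne_zero
    rw [inv_pow]
    field_simp
    ring
  rw [e]
  exact hx.2.2.neg.mul_right (hU'.inv.1.mul (hU.inv.pow l).1)

private theorem D6_one : D6_C Q l 1 1 := by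
  refine ⟨DI.VP.one, DI.VP.one, ?_⟩
  rw [one_pow, sub_self]
  exact DI.MP.zero

private theorem D6_pow {x' x : Om} (hx : D6_C Q l x' x) (n : ℕ) : D6_C Q l (x' ^ n) (x ^ n) := by
  induction n with
  | zero =>
    rw [pow_zero, pow_zero]
    exact D6_one
  | succ n ih =>
    rw [pow_succ, pow_succ]
    exact D6_mul ih hx

private theorem D6_prod (S : Finset ℂ) (f g : ℂ → Om) (h : ∀ u ∈ S, D6_C Q l (f u) (g u)) :
    D6_C Q l (∏ u ∈ S, f u) (∏ u ∈ S, g u) := by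
  classical
  induction S using Finset.induction_on with
  | empty =>
    rw [Finset.prod_empty, Finset.prod_empty]
    exact D6_one
  | insert a T ha ih =>
    rw [Finset.prod_insert ha, Finset.prod_insert ha]
    exact D6_mul (h a (Finset.mem_insert_self a T))
      (ih fun u hu => h u (Finset.mem_insert_of_mem hu))

/-- One factor. -/
private theorem D6_fac (hF : D6_F Q l) {w' w x' x y' y : Om} (hw : D6_C Q l w' w)
    (hx : D6_C Q l x' x) (hy : D6_C Q l y' y) (hU : UP Q (x - y)) :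
    D6_C Q l ((w' * ((x' - y') ^ 3)⁻¹) ^ 3) ((w * ((x - y) ^ 3)⁻¹) ^ 3) :=
  D6_pow (D6_mul hw (D6_inv (D6_pow (D6_sub hF hx hy) 3) (hU.pow 3))) 3

private theorem D6_F1 : D6_F Q 1 := by
  intro x y _ _
  constructor
  · rw [pow_one, pow_one, pow_one, sub_self]
    exact DI.MP.zero
  · rw [pow_one, pow_one, pow_one, sub_self]
    exact DI.MP.zero

private theorem D6_refl1 {x : Om} (hx : VP Q x) : D6_C Q 1 x x := by
  refine ⟨hx, hx, ?_⟩
  rw [pow_one, sub_self]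
  exact DI.MP.zero

end

/-- **Theta units: congruences, at the good primes.** -/
theorem sD6 (hFer : S_Fer) (hD1 : S_D1) (hD3 : S_D3) (hHsP : S_HsP) (hD8 : S_D8) (hThU : S_ThU) :
    S_D6 := by
  intro n t _ m b hm hb hm2 hm15 Q hQ _ hQm z hz hzu
  have hP : Q.IsPrime := hQ.1.1
  obtain ⟨t1, -, t3⟩ := hThU n t m b hm hb hm2 Q hQ
  obtain ⟨hIz, hVz, -, hfac⟩ := t3 z hz hzu
  obtain ⟨hH, -⟩ := aB14 n t m b hm hb.ne hm2
  obtain ⟨hV1, hV3, -⟩ := hQ.2 b hb
  have hnot : ∀ u ∈ hs m b, ¬ IK Q b u := fun u hu => t1 hQm u (hH.mem u hu).1 (hH.mem u hu).2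
  have hTu : ∀ u ∈ hs m b, Tor n t u := fun u hu => tor_lam (Eb.ne_mul hm hb.ne) (hH.mem u hu).1
  have hVu : ∀ u ∈ hs m b, VP Q (xO b u) := fun u hu => IK.vp (hTu u hu) (hnot u hu)
  have hUu : ∀ u ∈ hs m b, UP Q (xO b z - xO b u) := fun u hu =>
    (hfac u (hH.mem u hu).1).2 (hH.mem u hu).2 (hnot u hu)
  have hV4 : VP Q (4 : Om) := by exact_mod_cast DI.VP.nat (P := Q) 4
  have hVW : ∀ u ∈ hs m b, VP Q (W2 b u) := fun u hu =>
    (hV4.mul ((hVu u hu).pow 3)).add (((hV1.mul (hVu u hu)).add hV3.1).pow 2)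
  constructor
  · intro z' hz'
    have hc := IK.red hD1 hQ hb hz hIz hz'
    have hx : D6_C Q 1 (xO b (z + z')) (xO b z) := by
      refine ⟨?_, hVz, by rwa [pow_one]⟩
      have e : xO b (z + z') = (xO b (z + z') - xO b z) + xO b z := by ring
      rw [e]
      exact hc.vp.add hVz
    have h : D6_C Q 1 (Theta m b (z + z')) (Theta m b z) := by
      unfold Theta
      exact D6_prod (hs m b) _ _ fun u hu =>
        D6_fac D6_F1 (D6_refl1 (hVW u hu)) hx (D6_refl1 (hVu u hu)) (hUu u hu)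
    have h6 := h.2.2
    rwa [pow_one] at h6
  · intro q l hq hl hQq
    obtain ⟨hF3, hF4, -⟩ := hFer n t q l hq hl Q hQ.1 hQq
    obtain ⟨-, hd1, hd3, hx3⟩ := hD3 n t q l hq hl Q hQ hQq b hb
    have hqp : q.IsPrime := hq.1
    have hq0 : q ≠ ⊥ := hq.2.1
    have hF : D6_F Q l := fun x y hx hy => ⟨(hF4 x y hx hy).1, (hF4 x y hx hy).2.1⟩
    have hqm : q.IsMaximal := hqp.isMaximal hq0
    have hsup : q ⊔ m = ⊤ := by
      by_contra hne
      have h3 : q ⊔ m = q := (hqm.eq_of_le hne le_sup_left).symm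
      have h4 : m ≤ q := h3 ▸ le_sup_right
      exact hQm fun v hv => hQq v (h4 hv)
    have hq15 : PrI q 15 := (hFer n t q l hq hl Q hQ.1 hQq).2.2.2.2.2.2.2.2.2
    have hqb : G15 (q * b) := g15_mul' hq0 hq15 hb
    have hHq : IsHalf m (q * b) (hs m b) :=
      (hHsP n t m b hm hb.ne hm2).2.2.1 q (hs m b) hq0 hsup hH
    have hth := ((hD8 n t m (q * b) hm hqb hm2 hm15).1 (hs m b) hHq z).symm
    have hmk : ∀ {x' x : Om}, VP Q x → MP Q (x' - x ^ l) → D6_C Q l x' x := by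
      intro x' x hV h
      refine ⟨?_, hV, h⟩
      have e : x' = (x' - x ^ l) + x ^ l := by ring
      rw [e]
      exact h.vp.add (hV.pow l)
    have hc1 : D6_C Q l (a1O (q * b)) (a1O b) := hmk hV1 hd1
    have hc3 : D6_C Q l (a3O (q * b)) (a3O b) := hmk hV3.1 hd3
    have hcx : ∀ u : ℂ, Tor n t u → ¬ IK Q b u → D6_C Q l (xO (q * b) u) (xO b u) :=
      fun u hu hI => hmk (IK.vp hu hI) (hx3 u hu hI).2
    have hcn : ∀ j : ℤ, D6_C Q l (j : Om) (j : Om) := by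
      intro j
      refine ⟨DI.VP.int j, DI.VP.int j, ?_⟩
      have h3 := hF3 j 1 (by
        rw [Int.cast_one]
        exact DI.MP.one_not)
      rw [Int.cast_one, div_one] at h3
      rw [← neg_sub]
      exact h3.neg
    have hc4 : D6_C Q l (4 : Om) (4 : Om) := by exact_mod_cast hcn 4
    have hcw : ∀ u : ℂ, D6_C Q l (xO (q * b) u) (xO b u) → D6_C Q l (W2 (q * b) u) (W2 b u) := by
      intro u hu
      unfold W2
      exact D6_add hF (D6_mul hc4 (D6_pow hu 3)) (D6_pow (D6_add hF (D6_mul hc1 hu) hc3) 2)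
    have h : D6_C Q l (Theta m (q * b) z) (Theta m b z) := by
      rw [hth]
      unfold Theta
      refine D6_prod (hs m b) _ _ fun u hu => ?_
      have hxu := hcx u (hTu u hu) (hnot u hu)
      exact D6_fac hF (hcw u hxu) (hcx z hz hIz) hxu (hUu u hu)
    exact h.2.2

end Pool.Agent.DS
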