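import Pool.Agent.Lib.DS.D.SpecK
import Pool.Agent.Lib.DN.O.All
import Pool.Agent.Lib.DN.B.B14

/-!
# Theorem DS (all imaginary quadratic fields), part D, module D7: exact distribution of `Theta` (`S_D7`)
-/

set_option autoImplicit false

open scoped Pointwise nonZeroDivisors

noncomputable section

namespace Pool.Agent.DS

open Pool.Agent.MuZ Pool.Agent.FW Pool.Agent.DN NumberField IsDedekindDomain
open Pool.Agent.DI (io ofC io_inj exists_io io_ofC ofC_io VP MP UP TP ex)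

variable {n t : ℕ}

private theorem D7_mono' [SqN n t] {a b c : Ideal (OO n t)} {z : ℂ} (h : z ∈ Lam (a * b)) :
    z ∈ Lam (a * (c * b)) := by
  rw [mul_left_comm]
  exact lam_mono h

/-- `sp 2 * b`. -/
private theorem D7_sp2 [SqN n t] {b : Ideal (OO n t)} {z : ℂ} : z ∈ Lam (sp 2 * b) ↔ 2 * z ∈ Lam b := by
  rw [lam_sp, toC_two]

/-- A system for `2` over `b` is a system over `l b`. -/
private theorem D7_sys2 [SqN n t] {l b : Ideal (OO n t)} (hl : l ≠ ⊥) (hb : b ≠ ⊥)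
    (hl2 : PrI l 2) {R : Finset ℂ} (hR : IsSys (sp 2) b R) : IsSys (sp 2) (l * b) R where
  mem u hu := D7_mono' (hR.mem u hu)
  ex z hz := by
    rw [D7_sp2] at hz
    obtain ⟨z', h1, h2⟩ := (aL5 n t l b 2 hl hb two_pos hl2).2 z (by exact_mod_cast hz)
    have h1' : z' ∈ Lam (sp 2 * b) := by
      rw [D7_sp2]
      exact_mod_cast h1
    obtain ⟨u, hu, h3⟩ := hR.ex z' h1'
    refine ⟨u, hu, ?_⟩
    have e : z - u = (z - z') + (z' - u) := by ring
    rw [e]
    exact lam_add h2 (lam_mono h3)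
  uni u hu u' hu' h := by
    apply hR.uni u hu u' hu'
    refine (aL5 n t l b 2 hl hb two_pos hl2).1 (u - u') ?_ h
    have h1 : u - u' ∈ Lam (sp 2 * b) := lam_sub (hR.mem u hu) (hR.mem u' hu')
    rw [D7_sp2] at h1
    exact_mod_cast h1

/-- Twice a system for `l`. -/
private theorem D7_dbl [SqN n t] {l b : Ideal (OO n t)} (hl2 : PrI l 2) {R : Finset ℂ} (hR : IsSys l b R) :
    IsSys l b (R.image fun v => 2 * v) where
  mem u hu := by
    obtain ⟨v, hv, rfl⟩ := Finset.mem_image.1 hu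
    have h := hR.mem v hv
    have e : 2 * v = v + v := by ring
    change 2 * v ∈ _
    rw [e]
    exact lam_add h h
  ex z hz := by
    have h1 : (1 : OO n t) ∈ l ⊔ Ideal.span {((2 : ℕ) : OO n t)} := by
      rw [hl2]
      trivial
    obtain ⟨v, hv, w, hw, hvw⟩ := Submodule.mem_sup.1 h1
    obtain ⟨u, rfl⟩ := Ideal.mem_span_singleton'.1 hw
    have hy : toC u * z ∈ Lam (l * b) := lam_mul u hz
    obtain ⟨r, hr, h2⟩ := hR.ex _ hy
    refine ⟨2 * r, Finset.mem_image_of_mem _ hr, ?_⟩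
    have h3 : toC v * z ∈ Lam b := lam_prod.1 hz v hv
    have h4 : toC v + toC u * 2 = 1 := by
      have h5 := congrArg (toC : OO n t → ℂ) hvw
      rw [toC_add, toC_mul, toC_nat, toC_one] at h5
      exact_mod_cast h5
    have e : z - 2 * r = toC v * z + ((toC u * z - r) + (toC u * z - r)) := by
      linear_combination (-z) * h4
    rw [e]
    exact lam_add h3 (lam_add h2 h2)
  uni u hu u' hu' h := by
    obtain ⟨v, hv, rfl⟩ := Finset.mem_image.1 hu
    obtain ⟨v', hv', rfl⟩ := Finset.mem_image.1 hu'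
    have h1 : v - v' ∈ Lam (l * b) := lam_sub (hR.mem v hv) (hR.mem v' hv')
    have h2 : 2 * (v - v') ∈ Lam b := by
      have e : 2 * (v - v') = 2 * v - 2 * v' := by ring
      rw [e]
      exact h
    have h3 := lam_of_odd hl2 h1 h2
    rw [hR.uni v hv v' hv' h3]

private theorem D7_sign (c n : ℕ) (hn : Odd n) : ((-1 : Om) ^ c) ^ n = (-1) ^ c := by
  rcases neg_one_pow_eq_or Om c with h | h
  · rw [h, one_pow]
  · rw [h, hn.neg_one_pow]

/-- The constant of `S_Dis` is a cube root of unity. -/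
private theorem D7_cube [SqN n t] (hD8a : S_D8a) (hDis : S_Dis) (hDis2 : S_Dis2)
    {m b l : Ideal (OO n t)} (hm : m ≠ ⊥) (hG : G15 b) (hm2 : PrI m 2) (hl : l ≠ ⊥)
    (hl2 : PrI l 2) (hl15 : PrI l 15) (C : Om)
    (hC0 : C ≠ 0)
    (hC : ∀ R : Finset ℂ, IsSys l b R → ∀ z : ℂ, Tor n t z → z ∉ Lam (l * m * b) →
      ∏ v ∈ R, th0 m b (z + v) = C * th0 m (l * b) z) : C ^ 3 = 1 := by
  classical
  have hb : b ≠ ⊥ := hG.ne
  have hGl : G15 (l * b) := g15_mul' hl hl15 hG
  have hlb : l * b ≠ ⊥ := by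
    intro h0
    rcases Ideal.mul_eq_bot.1 h0 with h1 | h1
    · exact hl h1
    · exact hb h1
  have hlmb : l * m * b ≠ ⊥ := by
    intro h0
    rcases Ideal.mul_eq_bot.1 h0 with h1 | h1
    · rcases Ideal.mul_eq_bot.1 h1 with h2 | h2
      · exact hl h2
      · exact hm h2
    · exact hb h1
  have h20 : sp (2 : OO n t) ≠ ⊥ := by
    intro h0
    have h1 : (2 : OO n t) = 0 := Ideal.span_singleton_eq_bot.1 h0
    have h2 : toC (2 : OO n t) = 0 := by rw [h1, toC_zero]
    rw [toC_two] at h2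
    exact two_ne_zero h2
  have ecomm : m * (l * b) = l * m * b := by rw [mul_left_comm, mul_assoc]
  obtain ⟨R₀, hR₀, hc₀⟩ := (aL3 n t l b hl hb).2.2
  obtain ⟨R₂, hR₂, hc₂⟩ := (aL3 n t (sp 2) b h20 hb).2.2
  have hN4 : NI (sp (2 : OO n t)) = 4 := by
    have h1 := (aO2 n t).2.2.2.1 (2 : OO n t)
    have h2 : Nm (2 : OO n t) = 4 := by
      have hr : (2 : OO n t).re = 2 := rfl
      have hi : (2 : OO n t).im = 0 := rfl
      simp only [Nm, hr, hi]
      norm_num
    rw [h2] at h1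
    exact_mod_cast h1
  rw [hN4] at hc₂
  have hn : Odd R₀.card := by
    rw [hc₀]
    exact Nat.coprime_two_right.1 (((aO6 n t).2.2.1 2 l two_pos).1 hl2)
  have hcc : (hs m (l * b)).card = (hs m b).card := by
    have h1 := (sB14 n t m b hm hb hm2).2
    have h2 := (sB14 n t m (l * b) hm hlb hm2).2
    omega
  obtain ⟨z, hz, hzl⟩ := (hDis n t m b hm hG hm2).2 (l * m * b) hlmb
  have hT2 : Tor n t (2 * z) := by
    have h1 := tor_add hz hz
    rwa [← two_mul] at h1
  have hR₀T : ∀ v ∈ R₀, Tor n t v := fun v hv => tor_lam hlb (hR₀.mem v hv)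
  have h2v : ∀ v ∈ R₀, 2 * v ∈ Lam (l * m * b) := by
    intro v hv
    have h1 : v ∈ Lam (l * b) := hR₀.mem v hv
    have h2 : v ∈ Lam (l * m * b) := by
      rw [← ecomm]
      exact lam_mono h1
    have e : 2 * v = v + v := two_mul v
    rw [e]
    exact lam_add h2 h2
  have h2t : ∀ r ∈ R₂, 2 * r ∈ Lam b := fun r ht => D7_sp2.1 (hR₂.mem r ht)
  have hR₂T : ∀ r ∈ R₂, Tor n t r := by
    intro r ht
    exact tor_lam (b := sp 2 * b) (fun h0 => by
      rcases Ideal.mul_eq_bot.1 h0 with h1 | h1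
      · exact h20 h1
      · exact hb h1) (hR₂.mem r ht)
  -- first side
  have hA : ∏ v ∈ R₀, ∏ t ∈ R₂, th0 m b (z + v + t) =
      (-1) ^ (hs m b).card * (C * th0 m (l * b) (2 * z)) := by
    have h1 : ∀ v ∈ R₀, ∏ t ∈ R₂, th0 m b (z + v + t) =
        (-1) ^ (hs m b).card * th0 m b (2 * z + 2 * v) := by
      intro v hv
      have h2 := hDis2 n t m b hm hG hm2 R₂ hR₂ (z + v) (tor_add hz (hR₀T v hv)) (by
        intro h3
        apply hzl
        have h4 : 2 * (z + v) ∈ Lam (l * m * b) := by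
          rw [mul_assoc]
          exact lam_mono h3
        have e : 2 * z = 2 * (z + v) - 2 * v := by ring
        rw [e]
        exact lam_sub h4 (h2v v hv))
      rw [h2, mul_add]
    rw [Finset.prod_congr rfl h1, Finset.prod_mul_distrib, Finset.prod_const, D7_sign _ _ hn]
    congr 1
    rw [← hC _ (D7_dbl hl2 hR₀) (2 * z) hT2 hzl, Finset.prod_image]
    intro x _ y _ hxy
    exact mul_left_cancel₀ two_ne_zero hxy
  have hB : ∏ t ∈ R₂, ∏ v ∈ R₀, th0 m b (z + t + v) =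
      C ^ 4 * ((-1) ^ (hs m b).card * th0 m (l * b) (2 * z)) := by
    have h1 : ∀ t ∈ R₂, ∏ v ∈ R₀, th0 m b (z + t + v) = C * th0 m (l * b) (z + t) := by
      intro t ht
      refine hC R₀ hR₀ (z + t) (tor_add hz (hR₂T t ht)) ?_
      intro h3
      apply hzl
      have h4 : 2 * t ∈ Lam (l * m * b) := lam_mono (h2t t ht)
      have e : 2 * z = (z + t) + (z + t) - 2 * t := by ring
      rw [e]
      exact lam_sub (lam_add h3 h3) h4
    rw [Finset.prod_congr rfl h1, Finset.prod_mul_distrib, Finset.prod_const, hc₂]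
    congr 1
    rw [hDis2 n t m (l * b) hm hGl hm2 R₂ (D7_sys2 hl hb hl2 hR₂) z hz (by rw [ecomm]; exact hzl),
      hcc]
  have hAB : ∏ v ∈ R₀, ∏ t ∈ R₂, th0 m b (z + v + t) =
      ∏ t ∈ R₂, ∏ v ∈ R₀, th0 m b (z + t + v) := by
    rw [Finset.prod_comm]
    refine Finset.prod_congr rfl fun t _ => Finset.prod_congr rfl fun v _ => ?_
    congr 1
    ring
  rw [hA, hB] at hAB
  have hT0 : th0 m (l * b) (2 * z) ≠ 0 :=
    (hD8a n t m (l * b) hm hGl hm2).2.2.2.2 (2 * z) hT2 (by rw [ecomm]; exact hzl)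
  have hs0 : (-1 : Om) ^ (hs m b).card ≠ 0 := pow_ne_zero _ (by norm_num)
  have h5 : C ^ 3 * (C * ((-1) ^ (hs m b).card * th0 m (l * b) (2 * z))) =
      1 * (C * ((-1) ^ (hs m b).card * th0 m (l * b) (2 * z))) := by
    linear_combination -hAB
  exact mul_right_cancel₀ (mul_ne_zero hC0 (mul_ne_zero hs0 hT0)) h5

/-- **Exact distribution of `Theta`.** -/
theorem sD7 (hD8a : S_D8a) (hDis : S_Dis) (hDis2 : S_Dis2) : S_D7 := by
  intro n t _ m b hm hG hm2 _
  have hTh := (hD8a n t m b hm hG hm2).1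
  refine ⟨?_, ?_⟩
  · intro l R hl hl2 hl15 hlm hR z hz hzl
    obtain ⟨C, hC0, hC⟩ := (hDis n t m b hm hG hm2).1 l hl hl15 hlm
    have hC3 := D7_cube hD8a hDis hDis2 hm hG hm2 hl hl2 hl15 C hC0 hC
    have h1 : ∏ v ∈ R, Theta m b (z + v) = (∏ v ∈ R, th0 m b (z + v)) ^ 3 := by
      rw [← Finset.prod_pow]
      exact Finset.prod_congr rfl fun v _ => hTh _
    rw [h1, hC R hR z hz hzl, mul_pow, hC3, one_mul,
      (hD8a n t m (l * b) hm (g15_mul' hl hl15 hG) hm2).1]
  · refine ⟨((-1) ^ (hs m b).card) ^ 3, ?_, ?_⟩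
    · rw [← pow_mul]
      exact neg_one_pow_eq_or ℤ _
    · intro R hR z hz hzl
      have h1 : ∏ v ∈ R, Theta m b (z + v) = (∏ v ∈ R, th0 m b (z + v)) ^ 3 := by
        rw [← Finset.prod_pow]
        exact Finset.prod_congr rfl fun v _ => hTh _
      rw [h1, hDis2 n t m b hm hG hm2 R hR z hz hzl, mul_pow, hTh]
      push_cast
      ring

end Pool.Agent.DS
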