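import Pool.Agent.Lib.DS.D.SpecK
import Pool.Agent.Lib.DN.O.All
import Pool.Agent.Lib.DN.B.B14

/-!
# Theorem DS (all imaginary quadratic fields), part D, module D8a: theta and its cube root are well defined, even and homogeneous; `S_D8`

Author helper27.
-/

set_option autoImplicit false

open scoped Pointwise nonZeroDivisors

noncomputable section

namespace Pool.Agent.DS

open Pool.Agent.MuZ Pool.Agent.FW Pool.Agent.DN NumberField IsDedekindDomain
open Pool.Agent.DI (io ofC io_inj exists_io io_ofC ofC_io VP MP UP TP ex)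

/-- The ideal `sp α * b` is framed. -/
private theorem D8a_g15 {n t : ℕ} [SqN n t] {α : OO n t} (hα : α ≠ 0) (hc : Cop α 15)
    {b : Ideal (OO n t)} (hb : G15 b) : G15 (sp α * b) :=
  g15_mul' (Eb.ne_sp hα) (((aO6 n t).2.2.2.1 15 α (by norm_num)).2 hc) hb

theorem sD8a (hX : S_XOm) (hHsP : S_HsP) (hQt : S_Qt) : S_D8a := by
  classical
  intro n t _ m b hm hb hm2
  have hh := (sB14 n t m b hm hb.ne hm2).1
  obtain ⟨-, q2, q3, q4⟩ := hQt n t b hb
  obtain ⟨p1, p2, -, -⟩ := hHsP n t m b hm hb.ne hm2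
  have key : ∀ S : Finset ℂ, IsHalf m b S → ∀ z : ℂ, ∏ u ∈ S, qO b z u = th0 m b z := by
    intro S hS z
    exact p1 S (hs m b) hS hh (fun u => qO b z u)
      fun u _ => ⟨(q3 z u 0 (lam_zero b)).1, fun l hl => (q3 z u l hl).2.1⟩
  refine ⟨fun z => ?_, key, fun z => ⟨?_, fun l hl => ?_⟩, fun α z hα hc hT => ?_,
    fun z hT hz => ?_⟩
  · exact Finset.prod_pow _ _ _
  · exact Finset.prod_congr rfl fun u _ => (q3 z u 0 (lam_zero b)).2.2.1
  · exact Finset.prod_congr rfl fun u _ => (q3 z u l hl).2.2.2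
  · have hab : G15 (sp α * b) := D8a_g15 hα hc hb
    have hh' := (sB14 n t m (sp α * b) hm hab.ne hm2).1
    have h1 := p2 α (hs m (sp α * b)) hα hh'
    rw [← key _ h1 (toC α * z),
      Finset.prod_image (fun x _ y _ hxy => mul_left_cancel₀ (toC_ne hα) hxy)]
    refine Finset.prod_congr rfl fun u hu => ?_
    obtain ⟨hu1, hu2⟩ := hh'.mem u hu
    exact q2 α z u hα hc hT (tor_lam (mul_ne_zero hm hab.ne) hu1) hu2
  · refine Finset.prod_ne_zero_iff.2 fun u hu => ?_
    obtain ⟨hu1, hu2⟩ := hh.mem u hu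
    have hTu : Tor n t u := tor_lam (mul_ne_zero hm hb.ne) hu1
    refine q4 z u hT hTu (fun h => hu2 (lam_of_odd hm2 hu1 h)) (fun h => hz (lam_mono h)) ?_ ?_
    · intro h
      have h1 := lam_add (lam_mono (a := m) h) hu1
      rw [sub_add_cancel] at h1
      exact hz h1
    · intro h
      have h1 := lam_sub (lam_mono (a := m) h) hu1
      rw [add_sub_cancel_right] at h1
      exact hz h1

theorem sD8 (h : S_D8a) : S_D8 := by
  intro n t _ m b hm hb hm2 _
  obtain ⟨c1, c2, c3, c4, c5⟩ := h n t m b hm hb hm2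
  refine ⟨?_, ?_, ?_, ?_⟩
  · intro S hS z
    rw [Finset.prod_pow, c1 z, ← c2 S hS z]
    rfl
  · intro z
    refine ⟨?_, fun l hl => ?_⟩
    · rw [c1, c1, (c3 z).1]
    · rw [c1, c1, (c3 z).2 l hl]
  · intro α z hα hc hT
    rw [(h n t m (sp α * b) hm (D8a_g15 hα hc hb) hm2).1 z, c4 α z hα hc hT, c1]
  · intro z hz hz'
    rw [c1]
    exact pow_ne_zero 3 (c5 z hz hz')

end Pool.Agent.DS
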