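import Pool.Agent.Lib.DS.D.SpecK
import Pool.Agent.Lib.DN.O.All
import Pool.Agent.Lib.DN.B.All

/-!
# Theorem DS (all imaginary quadratic fields), part D: distribution of theta up to a constant
-/

set_option autoImplicit false

open scoped Pointwise nonZeroDivisors

noncomputable section

namespace Pool.Agent.DS

open Pool.Agent.MuZ Pool.Agent.FW Pool.Agent.DN NumberField IsDedekindDomain
open Pool.Agent.DI (io ofC io_inj exists_io io_ofC ofC_io VP MP UP TP ex)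

variable {n t : ℕ}

/-- a torsion point which is not of order two -/
private theorem Dis_pt [SqN n t] (c : Ideal (OO n t)) (hc : c ≠ ⊥) :
    ∃ z : ℂ, Tor n t z ∧ 2 * z ∉ Lam c := by
  obtain ⟨j, hj, hjc⟩ := exists_nat hc
  have hj' : (j : ℂ) ≠ 0 := by exact_mod_cast hj.ne'
  refine ⟨toC (1 : OO n t) / (4 * j : ℕ), tor_div (by omega) 1, fun h => ?_⟩
  obtain ⟨u, hu⟩ := h _ hjc
  rw [toC_nat, toC_one] at hu
  have h1 : toC ((2 : OO n t) * u) = toC (1 : OO n t) := by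
    rw [toC_mul, toC_two, ← hu, toC_one]
    push_cast
    field_simp
    norm_num
  have h2 : ((2 : ℕ) : OO n t) ∣ 1 := ⟨u, by
    rw [← toC_inj h1]
    push_cast
    rfl⟩
  have h3 := ((nat_dvd_iff 2 (1 : OO n t)).1 h2).1
  rw [re_one] at h3
  norm_num at h3

/-- the function `th0` over `ℂ` -/
private theorem Dis_io (hQt : S_Qt) [SqN n t] (m b : Ideal (OO n t)) (hm : m ≠ ⊥)
    (hb : G15 b) (h2 : PrI m 2) (z : ℂ) (hz : Tor n t z) :
    io (th0 m b z) = (∏ u ∈ hs m b, wdC b u ^ 2) *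
      ((∏ u ∈ hs m b, (wpC b z - wpC b u)) ^ 3)⁻¹ := by
  have hmb : m * b ≠ ⊥ := Eb.ne_mul hm hb.ne
  have hS := (aB14 n t m b hm hb.ne h2).1
  unfold th0
  rw [map_prod, ← Finset.prod_pow, ← Finset.prod_inv_distrib, ← Finset.prod_mul_distrib]
  refine Finset.prod_congr rfl fun u hu => ?_
  rw [((hQt n t b hb).1 z u hz (tor_lam hmb (hS.mem u hu).1) (hS.mem u hu).2).1]
  rfl

theorem sDis (hQt : S_Qt) (hD8a : S_D8a) : S_Dis := by
  intro n t _ m b hm hb h2
  refine ⟨fun l hl hl15 hlm => ?_, fun c hc => Dis_pt c hc⟩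
  have hlg : G15 (l * b) := g15_mul' hl hl15 hb
  have hlb : l * b ≠ ⊥ := hlg.ne
  have hlm0 : l * m ≠ ⊥ := Eb.ne_mul hl hm
  have hlmb : l * m * b ≠ ⊥ := Eb.ne_mul hlm0 hb.ne
  obtain ⟨R0, hR0, _⟩ := (aL3 n t l b hl hb.ne).2.2
  obtain ⟨z0, hz0, hz0'⟩ := Dis_pt (l * m * b) hlmb
  have hz0m : z0 ∉ Lam (l * m * b) := by
    intro h
    apply hz0'
    have := lam_nat 2 h
    exact_mod_cast this
  obtain ⟨_, _, t3, _, t5⟩ := hD8a n t m b hm hb h2
  obtain ⟨_, _, _, _, s5⟩ := hD8a n t m (l * b) hm hlg h2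
  have htor : ∀ v ∈ R0, Tor n t v := fun v hv => tor_lam hlb (hR0.mem v hv)
  -- nonvanishing
  have hne1 : ∀ z : ℂ, Tor n t z → z ∉ Lam (l * m * b) → th0 m (l * b) z ≠ 0 := by
    intro z hz hz'
    refine s5 z hz ?_
    have e : m * (l * b) = l * m * b := by rw [← mul_assoc, mul_comm m l]
    rwa [e]
  have hne2 : ∀ z : ℂ, Tor n t z → z ∉ Lam (l * m * b) → ∏ v ∈ R0, th0 m b (z + v) ≠ 0 := by
    intro z hz hz'
    refine Finset.prod_ne_zero_iff.2 fun v hv => t5 _ (tor_add hz (htor v hv)) fun h => hz' ?_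
    have h1 : z + v ∈ Lam (l * m * b) := by
      have := lam_mono (a := l) h
      rwa [← mul_assoc] at this
    have h3 : v ∈ Lam (l * m * b) := by
      have := lam_mono (a := m) (hR0.mem v hv)
      have e : m * (l * b) = l * m * b := by rw [← mul_assoc, mul_comm m l]
      rwa [e] at this
    have := lam_sub h1 h3
    rwa [add_sub_cancel_right] at this
  -- the product over `ℂ`
  obtain ⟨c, hc, hcz⟩ := aB16 n t l m b hl hm hb.ne h2 hlm R0 hR0
  have hL : ∀ z : ℂ, Tor n t z → z ∉ Lam (l * m * b) → io (∏ v ∈ R0, th0 m b (z + v)) =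
      (∏ _v ∈ R0, ∏ u ∈ hs m b, wdC b u ^ 2) *
        ((c * ∏ u ∈ hs m (l * b), (wpC (l * b) z - wpC (l * b) u)) ^ 3)⁻¹ := by
    intro z hz hz'
    rw [← hcz z hz', map_prod, ← Finset.prod_pow, ← Finset.prod_inv_distrib,
      ← Finset.prod_mul_distrib]
    refine Finset.prod_congr rfl fun v hv => ?_
    exact Dis_io hQt m b hm hb h2 _ (tor_add hz (htor v hv))
  have hR : ∀ z : ℂ, Tor n t z → io (th0 m (l * b) z) =
      (∏ u ∈ hs m (l * b), wdC (l * b) u ^ 2) *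
        ((∏ u ∈ hs m (l * b), (wpC (l * b) z - wpC (l * b) u)) ^ 3)⁻¹ := fun z hz =>
    Dis_io hQt m (l * b) hm hlg h2 z hz
  refine ⟨(∏ v ∈ R0, th0 m b (z0 + v)) / th0 m (l * b) z0,
    div_ne_zero (hne2 z0 hz0 hz0m) (hne1 z0 hz0 hz0m), fun R hRs z hz hz' => ?_⟩
  have hsys : ∏ v ∈ R, th0 m b (z + v) = ∏ v ∈ R0, th0 m b (z + v) := by
    refine sys_prod hRs hR0 (fun v => th0 m b (z + v)) fun w y hy => ?_
    have h1 := (t3 (z + y)).2 (w - y) hy
    have e : z + y + (w - y) = z + w := by ring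
    rw [e] at h1
    exact h1
  have hcross : (∏ v ∈ R0, th0 m b (z + v)) * th0 m (l * b) z0 =
      (∏ v ∈ R0, th0 m b (z0 + v)) * th0 m (l * b) z := by
    apply io_inj
    rw [map_mul, map_mul, hL z hz hz', hL z0 hz0 hz0m, hR z hz, hR z0 hz0, mul_pow, mul_pow,
      mul_inv, mul_inv]
    ring
  rw [hsys, div_mul_eq_mul_div, eq_div_iff (hne1 z0 hz0 hz0m), hcross]

end Pool.Agent.DS
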