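import Pool.Agent.Lib.DS.D.SpecK

/-!
# Theorem DS (all imaginary quadratic fields) (`p = 2`), part D, module Ref: the filtration of the kernel of reduction (addition)
-/

set_option autoImplicit false

open scoped Pointwise nonZeroDivisors

noncomputable section

namespace Pool.Agent.DS

open Pool.Agent.MuZ Pool.Agent.FW Pool.Agent.DN NumberField IsDedekindDomain

section

open Pool.Agent.DI

/-- From `s (t (y d)) = u` with a unit `u`. -/
private theorem Ref_aux {Q : Ideal ZZ} [hP : Q.IsPrime] {s t y d u : Om} (hy : VP Q y)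
    (hd : VP Q d) (hu : UP Q u) (h : s * (t * y * d) = u) : s ≠ 0 ∧ TP Q t s⁻¹ := by
  have hu0 := hu.ne_zero
  refine ⟨?_, y * d * u⁻¹, (hy.mul hd).mul hu.inv.1, ?_⟩
  · rintro rfl
    rw [zero_mul] at h
    exact hu0 h.symm
  · apply inv_eq_of_mul_eq_one_right
    calc s * (t * (y * d * u⁻¹)) = (s * (t * y * d)) * u⁻¹ := by ring
      _ = 1 := by rw [h, mul_inv_cancel₀ hu0]

/-- Duplication. -/
private theorem Ref_dbl {Q : Ideal ZZ} [hP : Q.IsPrime] {b2 b4 b6 b8 X s t : Om}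
    (v2 : VP Q b2) (v4 : VP Q b4) (v6 : VP Q b6) (v8 : VP Q b8) (ht : MP Q t) (hX : X ≠ 0)
    (hXt : TP Q t X⁻¹)
    (h : s * (4 * X ^ 3 + b2 * X ^ 2 + 2 * b4 * X + b6) =
      X ^ 4 - b4 * X ^ 2 - 2 * b6 * X - b8) : s ≠ 0 ∧ TP Q t s⁻¹ := by
  obtain ⟨y, hy, hay⟩ := hXt
  set a : Om := X⁻¹ with hadef
  have hXa : X * a = 1 := mul_inv_cancel₀ hX
  have ha : MP Q a := by
    rw [hay]
    exact MP.mul_right ht hy
  have hav := ha.vp
  have h4 : VP Q (4 : Om) := by exact_mod_cast VP.nat (P := Q) 4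
  have h2 : VP Q (2 : Om) := by exact_mod_cast VP.nat (P := Q) 2
  have hf : MP Q (a * (b4 * a + 2 * b6 * a ^ 2 + b8 * a ^ 3)) :=
    MP.mul_right ha (((v4.mul hav).add ((h2.mul v6).mul (hav.pow 2))).add (v8.mul (hav.pow 3)))
  refine Ref_aux (u := 1 - a * (b4 * a + 2 * b6 * a ^ 2 + b8 * a ^ 3)) hy
    (d := 4 + b2 * a + 2 * b4 * a ^ 2 + b6 * a ^ 3) ?_ ?_ ?_
  · exact (((h4.add (v2.mul hav)).add ((h2.mul v4).mul (hav.pow 2))).add (v6.mul (hav.pow 3)))
  · refine UP.congr UP.one ?_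
    have e : (1 : Om) - a * (b4 * a + 2 * b6 * a ^ 2 + b8 * a ^ 3) - 1 =
        -(a * (b4 * a + 2 * b6 * a ^ 2 + b8 * a ^ 3)) := by ring
    rw [e]
    exact hf.neg
  · rw [← hay]
    have e1 : X ^ 4 * a ^ 4 = 1 := by rw [← mul_pow, hXa, one_pow]
    have e2 : X ^ 3 * a ^ 4 = a := by
      calc X ^ 3 * a ^ 4 = (X * a) ^ 3 * a := by ring
        _ = a := by rw [hXa]; ring
    have e3 : X ^ 2 * a ^ 4 = a ^ 2 := by
      calc X ^ 2 * a ^ 4 = (X * a) ^ 2 * a ^ 2 := by ring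
        _ = a ^ 2 := by rw [hXa]; ring
    have e4 : X * a ^ 4 = a ^ 3 := by
      calc X * a ^ 4 = (X * a) * a ^ 3 := by ring
        _ = a ^ 3 := by rw [hXa]; ring
    have h5 := congrArg (fun t => t * a ^ 4) h
    linear_combination h5 + e1 - 4 * s * e2 - s * b2 * e3 - 2 * s * b4 * e4 - b4 * e3 -
      2 * b6 * e4

/-- Addition. -/
private theorem Ref_add {Q : Ideal ZZ} [hP : Q.IsPrime] {b2 b4 b6 b8 X X' s s' t : Om}
    (v2 : VP Q b2) (v4 : VP Q b4) (v6 : VP Q b6) (v8 : VP Q b8) (ht : MP Q t) (hX : X ≠ 0)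
    (hX' : X' ≠ 0) (hXt : TP Q t X⁻¹) (hXt' : TP Q t X'⁻¹)
    (h : (s + s') * (X - X') ^ 2 = 2 * X * X' * (X + X') + b2 * X * X' + b4 * (X + X') + b6)
    (h' : s * s' * (X - X') ^ 2 = X ^ 2 * X' ^ 2 - b4 * X * X' - b6 * (X + X') - b8) :
    s ≠ 0 ∧ TP Q t s⁻¹ := by
  obtain ⟨y, hy, hay⟩ := hXt
  obtain ⟨y', hy', hby⟩ := hXt'
  set a : Om := X⁻¹ with hadef
  set b : Om := X'⁻¹ with hbdef
  have hXa : X * a = 1 := mul_inv_cancel₀ hX
  have hXb : X' * b = 1 := mul_inv_cancel₀ hX'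
  have ha : MP Q a := by
    rw [hay]
    exact MP.mul_right ht hy
  have hb : MP Q b := by
    rw [hby]
    exact MP.mul_right ht hy'
  have hav := ha.vp
  have hbv := hb.vp
  have h2 : VP Q (2 : Om) := by exact_mod_cast VP.nat (P := Q) 2
  have ht0 : t ≠ 0 := by
    rintro rfl
    rw [zero_mul] at hay
    rw [hay, mul_zero] at hXa
    exact zero_ne_one hXa
  have e1 : (X - X') ^ 2 * (a ^ 2 * b ^ 2) = (b - a) ^ 2 := by
    calc (X - X') ^ 2 * (a ^ 2 * b ^ 2) = ((X * a) * b - (X' * b) * a) ^ 2 := by ring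
      _ = (b - a) ^ 2 := by rw [hXa, hXb]; ring
  have e2 : (s + s') * (b - a) ^ 2 = 2 * (a + b) + b2 * a * b + b4 * a * b * (a + b) +
      b6 * a ^ 2 * b ^ 2 := by
    calc (s + s') * (b - a) ^ 2 = ((s + s') * (X - X') ^ 2) * (a ^ 2 * b ^ 2) := by
          rw [← e1]; ring
      _ = 2 * (X * a) * (X' * b) * ((X * a) * b + (X' * b) * a) + b2 * (X * a) * (X' * b) * a * b
        + b4 * ((X * a) * b + (X' * b) * a) * a * b + b6 * a ^ 2 * b ^ 2 := by rw [h]; ring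
      _ = _ := by rw [hXa, hXb]; ring
  have e3 : s * s' * (b - a) ^ 2 = 1 - (b4 * a * b + b6 * a * b * (a + b) +
      b8 * a ^ 2 * b ^ 2) := by
    calc s * s' * (b - a) ^ 2 = (s * s' * (X - X') ^ 2) * (a ^ 2 * b ^ 2) := by
          rw [← e1]; ring
      _ = (X * a) ^ 2 * (X' * b) ^ 2 - b4 * (X * a) * (X' * b) * a * b
        - b6 * ((X * a) * b + (X' * b) * a) * a * b - b8 * a ^ 2 * b ^ 2 := by rw [h']; ring
      _ = _ := by rw [hXa, hXb]; ring
  have hn' : MP Q (b4 * a * b + b6 * a * b * (a + b) + b8 * a ^ 2 * b ^ 2) := by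
    refine MP.add (MP.add ?_ ?_) ?_
    · exact MP.mul_right (MP.mul_left v4 ha) hbv
    · exact MP.mul_right (MP.mul_right (MP.mul_left v6 ha) hbv) (hav.add hbv)
    · rw [pow_two a, show b8 * (a * a) * b ^ 2 = (b8 * a * b ^ 2) * a by ring]
      exact MP.mul_left ((v8.mul hav).mul (hbv.pow 2)) ha
  have hs0 : s ≠ 0 := by
    rintro rfl
    rw [zero_mul, zero_mul] at e3
    apply MP.one_not (P := Q)
    have e4 : (1 : Om) = b4 * a * b + b6 * a * b * (a + b) + b8 * a ^ 2 * b ^ 2 := by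
      linear_combination -e3
    rw [e4]
    exact hn'
  refine ⟨hs0, t⁻¹ * s⁻¹, ?_, ?_⟩
  swap
  · rw [← mul_assoc, mul_inv_cancel₀ ht0, one_mul]
  rcases VP.or_inv (P := Q) (t⁻¹ * s⁻¹) with hv | hm
  · exact hv
  exfalso
  have e5 : (t⁻¹ * s⁻¹)⁻¹ = s * t := by
    rw [mul_inv, inv_inv, inv_inv, mul_comm]
  rw [e5] at hm
  have hn1 : VP Q (2 * (y + y') + b2 * y * b + b4 * y * b * (a + b) + b6 * y * a * b ^ 2) :=
    (((h2.mul (hy.add hy')).add ((v2.mul hy).mul hbv)).add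
      (((v4.mul hy).mul hbv).mul (hav.add hbv))).add
      (((v6.mul hy).mul hav).mul (hbv.pow 2))
  have e6 : (1 : Om) = s * t * (2 * (y + y') + b2 * y * b + b4 * y * b * (a + b) +
      b6 * y * a * b ^ 2) - s * t * (s * t * (y' - y) ^ 2) +
      (b4 * a * b + b6 * a * b * (a + b) + b8 * a ^ 2 * b ^ 2) := by
    have e7 : (b - a) ^ 2 = t ^ 2 * (y' - y) ^ 2 := by
      rw [hay, hby]
      ring
    have e8 : 2 * (a + b) + b2 * a * b + b4 * a * b * (a + b) + b6 * a ^ 2 * b ^ 2 =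
        t * (2 * (y + y') + b2 * y * b + b4 * y * b * (a + b) + b6 * y * a * b ^ 2) := by
      linear_combination (2 + b2 * b + b4 * b * (a + b) + b6 * a * b ^ 2) * hay + 2 * hby
    rw [e8] at e2
    linear_combination s * e2 - e3 - s ^ 2 * e7
  apply MP.one_not (P := Q)
  rw [e6]
  exact MP.add (MP.sub (MP.mul_right hm hn1)
    (MP.mul_right hm (hm.vp.mul ((hy'.sub hy).pow 2)))) hn'

end

open Pool.Agent.DI (io ofC io_inj exists_io io_ofC ofC_io VP MP UP TP ex)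

theorem sRef (hX : S_XOm) : S_Ref := by
  intro n t _ b hb Q hQ s ht z z' hz hz'
  have hP : Q.IsPrime := hQ.1.1
  have hx := hX n t b hb
  obtain ⟨v1, u3, -⟩ := hQ.2 b hb
  have v2 : VP Q (a1O b ^ 2) := v1.pow 2
  have v4 : VP Q (a1O b * a3O b) := v1.mul u3.1
  have v6 : VP Q (a3O b ^ 2) := u3.1.pow 2
  have v8 : VP Q (0 : Om) := DI.VP.zero
  have htor : Tor n t (z + z') := tor_add hz.1 hz'.1
  refine ⟨htor, ?_⟩
  by_cases hl : z ∈ Lam b
  · rcases hz'.2 with h | h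
    · exact Or.inl (lam_add hl h)
    · right
      rw [add_comm, (hx.per z' z hl).1]
      exact h
  by_cases hl' : z' ∈ Lam b
  · rcases hz.2 with h | h
    · exact Or.inl (lam_add h hl')
    · right
      rw [(hx.per z z' hl').1]
      exact h
  by_cases hs : z + z' ∈ Lam b
  · exact Or.inl hs
  right
  obtain ⟨hX, hXt⟩ := hz.2.resolve_left hl
  obtain ⟨hX', hXt'⟩ := hz'.2.resolve_left hl'
  by_cases hd : z - z' ∈ Lam b
  · have e : z + z' = 2 * z + -(z - z') := by ring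
    have h2 : 2 * z ∉ Lam b := by
      intro h
      apply hs
      rw [e]
      exact lam_add h (lam_neg hd)
    rw [e, (hx.per (2 * z) _ (lam_neg hd)).1]
    refine Ref_dbl v2 v4 v6 v8 ht hX hXt ?_
    have h3 := hx.dup z hz.1 h2
    rw [hx.crv z hz.1 hl] at h3
    linear_combination h3
  · have h1 := hx.kad z z' hz.1 hz'.1 hl hl' hs hd
    have h2 := hx.kml z z' hz.1 hz'.1 hl hl' hs hd
    refine Ref_add v2 v4 v6 v8 ht hX hX' hXt hXt' (s' := xO b (z - z')) ?_ ?_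
    · linear_combination h1
    · linear_combination h2

end Pool.Agent.DS
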