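import Pool.Agent.Lib.DS.D.SpecK
import Pool.Agent.Lib.DN.O.All
import Pool.Agent.Lib.DN.B.All

/-!
# Theorem DS (all imaginary quadratic fields), part D, module RoH: the telescoping product of the framings
-/

set_option autoImplicit false

open scoped Pointwise nonZeroDivisors

noncomputable section

namespace Pool.Agent.DS

open Pool.Agent.MuZ Pool.Agent.FW Pool.Agent.DN NumberField IsDedekindDomain
open Pool.Agent.DI (io ofC io_inj exists_io io_ofC ofC_io VP MP UP TP ex)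

variable {n t : ℕ}

/-- An element prime to `15` has a power congruent to `1` modulo `15`. -/
private theorem RoH_pow [SqN n t] {μ : OO n t} (h : Cop μ 15) :
    ∃ e : ℕ, 0 < e ∧ (15 : OO n t) ∣ μ ^ e - 1 := by
  obtain ⟨β, -, hβ⟩ := cop_inv h
  let F : ℕ → ZMod 15 × ZMod 15 := fun j => (((μ ^ j).re : ZMod 15), ((μ ^ j).im : ZMod 15))
  obtain ⟨i, j, hij, e⟩ := Finite.exists_ne_map_eq_of_infinite F
  wlog hlt : i < j generalizing i j
  · exact this j i hij.symm e.symm (by omega)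
  obtain ⟨e1, e2⟩ := Prod.mk.inj e
  have h1 : (15 : OO n t) ∣ μ ^ j - μ ^ i := by
    have h2 := (nat_dvd_iff 15 (μ ^ j - μ ^ i)).2 ⟨by
      rw [QuadraticAlgebra.re_sub]
      have := (ZMod.intCast_eq_intCast_iff_dvd_sub _ _ 15).1 e1
      exact_mod_cast this, by
      rw [QuadraticAlgebra.im_sub]
      have := (ZMod.intCast_eq_intCast_iff_dvd_sub _ _ 15).1 e2
      exact_mod_cast this⟩
    exact_mod_cast h2
  refine ⟨j - i, by omega, ?_⟩
  have h3 : ∀ k : ℕ, (15 : OO n t) ∣ (μ * β) ^ k - 1 := by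
    intro k
    have h4 : μ * β - 1 ∣ (μ * β) ^ k - 1 ^ k := sub_dvd_pow_sub_pow _ _ k
    rw [one_pow] at h4
    have h5 : (15 : OO n t) ∣ μ * β - 1 := by exact_mod_cast hβ
    exact h5.trans h4
  have e4 : μ ^ (j - i) - 1 = (μ ^ j - μ ^ i) * β ^ i - ((μ * β) ^ i - 1) * (μ ^ (j - i) - 1) := by
    have e5 : μ ^ j = μ ^ i * μ ^ (j - i) := by
      rw [← pow_add]
      congr 1
      omega
    rw [e5, mul_pow]
    ring
  rw [e4]
  exact dvd_sub (h1.mul_right _) ((h3 i).mul_right _)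

theorem sRoH (hR1 : S_R1) : S_RoH := by
  intro n t _ a ha ha15
  obtain ⟨h0, μ, hh0, hμ, e0⟩ := aO5 n t a ha
  have hpw : ∀ k : ℕ, PrI (a ^ k) 15 := by
    intro k
    induction k with
    | zero => rw [pow_zero, Ideal.one_eq_top]; exact Eb.pri_top 15
    | succ k ih => rw [pow_succ]; exact Eb.pri_mul ih ha15
  have hcop : Cop μ 15 := by
    have h1 := hpw h0
    rw [e0] at h1
    exact ((aO6 n t).2.2.2.1 15 μ (by norm_num)).1 h1
  obtain ⟨e, he, hd⟩ := RoH_pow hcop
  have hal : a ^ (h0 * e) = sp (μ ^ e) := by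
    rw [pow_mul, e0, Ideal.span_singleton_pow]
  refine ⟨h0 * e, μ ^ e, Nat.mul_pos hh0 he, hal, pow_ne_zero e hμ, hd, ?_⟩
  intro b hb
  have hg : ∀ i : ℕ, G15 (a ^ i * b) := fun i => g15_mul' (Eb.ne_pow ha i) (hpw i) hb
  have hfr : ∀ i : ℕ, fr (a ^ i * b) ≠ 0 := fun i =>
    ((aB1 n t _ (hg i).ne).2.2.2.2.2 (hg i).cop).1
  have hio : ∀ i : ℕ, io (rO (a ^ i * b) (a * (a ^ i * b))) = fr (a ^ (i + 1) * b) / fr (a ^ i * b) := by
    intro i
    have e1 : a * (a ^ i * b) = a ^ (i + 1) * b := by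
      rw [pow_succ']
      ring
    rw [e1]
    exact (((hR1.1 n t).1 _ (hg i)).2.2.2 _ (hg (i + 1))).1
  have htel : ∀ k : ℕ, io (∏ i ∈ Finset.range k, rO (a ^ i * b) (a * (a ^ i * b))) =
      fr (a ^ k * b) / fr b := by
    intro k
    induction k with
    | zero =>
      rw [Finset.range_zero, Finset.prod_empty, map_one, pow_zero, one_mul]
      have h1 := hfr 0
      rw [pow_zero, one_mul] at h1
      rw [div_self h1]
    | succ k ih =>
      rw [Finset.prod_range_succ, map_mul, ih, hio]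
      have h1 := hfr k
      have h2 := hfr 0
      rw [pow_zero, one_mul] at h2
      field_simp
  apply io_inj
  rw [htel, hal, io_toO]
  have h3 : (3 : OO n t) ∣ μ ^ e - 1 := (Dvd.intro 5 (by norm_num)).trans hd
  have h5 : (5 : OO n t) ∣ μ ^ e - 1 := (Dvd.intro 3 (by norm_num)).trans hd
  have h7 := (((aB7 n t b hb.ne).2.2 hb.cop).1 (μ ^ e) (pow_ne_zero e hμ) h3 (Or.inl h5)).1
  have h2 := hfr 0
  rw [pow_zero, one_mul] at h2
  rw [h7, mul_div_assoc, div_self h2, mul_one]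

end Pool.Agent.DS
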