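import Pool.Agent.Lib.DS.D.D3
import Pool.Agent.Lib.DS.D.D4
import Pool.Agent.Lib.DS.D.D5
import Pool.Agent.Lib.DS.D.D6
import Pool.Agent.Lib.DS.D.D7
import Pool.Agent.Lib.DS.D.D8a
import Pool.Agent.Lib.DS.D.D9
import Pool.Agent.Lib.DS.D.Fer
import Pool.Agent.Lib.DS.D.Tw
import Pool.Agent.Lib.DS.D.RoH
import Pool.Agent.Lib.DS.D.D3a
import Pool.Agent.Lib.DS.D.D3b
import Pool.Agent.Lib.DS.D.Ref
import Pool.Agent.Lib.DS.D.RoL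
import Pool.Agent.Lib.DS.D.HsP
import Pool.Agent.Lib.DS.D.Qt
import Pool.Agent.Lib.DS.D.Dis
import Pool.Agent.Lib.DS.D.Dis2

/-!
# Theorem DS (all imaginary quadratic fields), part D: assembly (helper58)

`kD3`, `kD4`, .., `kD9` : the statements of `DS/IfaceD.lean`, from the statements of the first half (`S_XOm`, `S_R1`, `S_GQ`,
`S_D1`, `S_PrC`, `S_LaU`, `S_LgK`, `S_LgT`).
-/

set_option autoImplicit false

noncomputable section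

namespace Pool.Agent.DS

theorem kD3a (hX : S_XOm) (hR1 : S_R1) (hD1 : S_D1) (hPrC : S_PrC) (hLaU : S_LaU) : S_D3a :=
  sD3a hX hD1 sFer hPrC hLaU (sRoH hR1)

theorem kD3 (hX : S_XOm) (hR1 : S_R1) (hD1 : S_D1) (hPrC : S_PrC) (hLaU : S_LaU) : S_D3 :=
  sD3 sFer hLaU (sTw hX hR1) (kD3a hX hR1 hD1 hPrC hLaU)
    (sD3b hX hD1 sFer hPrC hLaU (kD3a hX hR1 hD1 hPrC hLaU))

theorem kD4 (hX : S_XOm) (hR1 : S_R1) (hD1 : S_D1) (hPrC : S_PrC) (hLaU : S_LaU) : S_D4 :=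
  sD4 hX hD1 sFer hPrC hLaU (kD3a hX hR1 hD1 hPrC hLaU) (sRef hX) (sRoL hX hD1)

theorem kD8a (hX : S_XOm) (hR1 : S_R1) : S_D8a := sD8a hX sHsP (sQt hX hR1)

theorem kD8 (hX : S_XOm) (hR1 : S_R1) : S_D8 := sD8 (kD8a hX hR1)

theorem kD5 (hX : S_XOm) (hGQ : S_GQ) (hD1 : S_D1) (hLgK : S_LgK) (hLgT : S_LgT) : S_D5 :=
  sD5 hX hGQ hD1 (sThU hX hD1) (sThL hLgK hLgT)

theorem kD6 (hX : S_XOm) (hR1 : S_R1) (hD1 : S_D1) (hPrC : S_PrC) (hLaU : S_LaU) : S_D6 :=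
  sD6 sFer hD1 (kD3 hX hR1 hD1 hPrC hLaU) sHsP (kD8 hX hR1) (sThU hX hD1)

theorem kD7 (hX : S_XOm) (hR1 : S_R1) : S_D7 :=
  sD7 (kD8a hX hR1) (sDis (sQt hX hR1) (kD8a hX hR1)) (sDis2 sHsP (sQt hX hR1) (kD8a hX hR1))

theorem kD9 (hX : S_XOm) (hR1 : S_R1) (hGQ : S_GQ) (hD1 : S_D1) : S_D9 :=
  sD9 hX hR1 hGQ hD1 (sThU hX hD1)

end Pool.Agent.DS
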