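import Pool.Agent.Lib.DS.D.Lg
import Pool.Agent.Lib.DS.R.GQ
import Pool.Agent.Lib.DN.D.PrC

/-!
# Theorem DS (all imaginary quadratic fields), part D: the product formula over `Om`, units (port of `DN/D/PrC.lean`)
-/

set_option autoImplicit false

open scoped Pointwise nonZeroDivisors

noncomputable section

namespace Pool.Agent.DS

open Pool.Agent.MuZ Pool.Agent.FW Pool.Agent.DN NumberField IsDedekindDomain
open Pool.Agent.DI (io ofC io_inj exists_io io_ofC ofC_io VP MP UP TP ex)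

theorem g15_mul {n t : ℕ} [SqN n t] {a b : Ideal (OO n t)} (hG : G15 b) (ha : a ≠ ⊥) (ha' : PrI a 15) :
    G15 (a * b) :=
  ⟨mul_ne_zero ha hG.ne, ((aO6 n t).1 15 a b).2 ⟨ha', hG.cop⟩⟩

open Classical in
theorem sPrC (R1 : S_R1) : S_PrC := by
  intro n t _ a b ha hG ha2 ha15 R hR T T' hT
  have hb := hG.ne
  have hG2 := g15_mul hG ha ha15
  have hab := hG2.ne
  obtain ⟨r1, r3, rx, rr⟩ := (R1.1 n t).1 b hG
  obtain ⟨r1', r3', rx', -⟩ := (R1.1 n t).1 _ hG2
  obtain ⟨t1, t2, t3⟩ := hT.trsS hb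
  have hu := hT.up ha hb ha2
  obtain ⟨hf, -⟩ := (aB1 n t b hb).2.2.2.2.2 hG.cop
  obtain ⟨hf', -⟩ := (aB1 n t _ hab).2.2.2.2.2 hG2.cop
  obtain ⟨C', hC', p1, p2⟩ := sVPr n t a b ha hb ha2 R hR (wpC b (1 / 3)) (fr b ^ 2) (wpC (a * b) (1 / 3))
    (fr (a * b) ^ 2) T T' (pow_ne_zero 2 hf) (pow_ne_zero 2 hf') hT
  rw [IsSys.card_eq ha hb hR] at p2
  simp only [xx_XC] at hC' p1 p2
  have tR : ∀ u ∈ R, Tor n t u := fun u hu => tor_lam hab (hR.mem u hu)
  set C := rO b (a * b) ^ 2 * ∏ u ∈ R, (if u ∈ Lam b then 1 else xO b u - xO b T) with hC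
  have ioC : io C = C' := by
    rw [hC, hC', map_mul, map_pow, (rr _ hG2).1, map_prod, div_pow]
    congr 1
    refine Finset.prod_congr rfl fun u hu' => ?_
    by_cases h : u ∈ Lam b
    · rw [if_pos h, if_pos h, map_one]
    · rw [if_neg h, if_neg h, map_sub, (rx u (tR u hu')).1, (rx T t1).1]
  have B8 := (aB8 n t a b ha hb ha2 R hR T hT.t1 hT.t2).2
  have hC0 : C ≠ 0 := by
    rw [hC]
    refine mul_ne_zero (pow_ne_zero 2 (rr _ hG2).2) (Finset.prod_ne_zero_iff.2 fun u hu' => ?_)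
    by_cases h : u ∈ Lam b
    · rw [if_pos h]
      exact one_ne_zero
    · rw [if_neg h]
      intro h0
      have h1 := congrArg io h0
      rw [map_sub, (rx u (tR u hu')).1, (rx T t1).1, map_zero] at h1
      apply B8 u hu' h
      unfold XC at h1
      field_simp at h1
      linear_combination h1
  refine ⟨C, hC0, rfl, ?_, ?_, hu, ?_⟩
  · intro z hz hzab
    apply io_inj
    rw [map_mul, ioC, map_prod, map_sub, (rx' z hz).1, (rx' T t1).1, ← p1 z hzab]
    refine Finset.prod_congr rfl fun u hu' => ?_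
    rw [map_sub, (rx _ (tor_add hz (tR u hu'))).1, (rx T t1).1]
  · apply io_inj
    rw [map_mul io (C ^ 2), map_pow io C, ioC]
    simp only [map_pow, map_mul, map_sub, (rx T t1).1, (rx T' t2).1, (rx _ t3).1, (rx' T t1).1,
      (rx' T' t2).1, (rx' _ t3).1]
    exact p2
  · intro Q hQ h2
    obtain ⟨V, hV⟩ := exists_VQ hQ.1
    have hv := hV.two hQ.1 h2
    have h3 := (cst_unit hv ha hb ha2 (hV.goodS R1 hQ hG) (hV.goodS R1 hQ hG2) hT hR).1
    rw [← hV.eq, ioC, hC']
    simpa only [xx_XC] using h3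

theorem sLaU (R1 : S_R1) : S_LaU := by
  classical
  intro n t _ b hG Q hQ h2
  obtain ⟨V, hV⟩ := exists_VQ hQ.1
  have hv := hV.two hQ.1 h2
  have hb := hG.ne
  have hg := hV.goodS R1 hQ hG
  have hK := sVCrd n t _ V.valuation b _ _ hb hg.toICd
  obtain ⟨r1, r3, rx, rr⟩ := (R1.1 n t).1 b hG
  constructor
  · intro T T' hT
    obtain ⟨t1, t2, t3⟩ := hT.trsS hb
    have k1 := ord2_val hv hb hg.toICd hT.t1 hT.t2
    refine ⟨?_, ?_, ?_, ?_⟩
    · rw [← hV.le, (rx T t1).1]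
      exact k1
    · rw [← hV.eq, map_sub, (rx T t1).1, (rx T' t2).1]
      exact ord2_unit hv hb hg hT
    · rw [hV.ikS R1 hG]
      rintro ⟨-, h | h⟩
      · exact hT.t2 h
      · exact absurd k1 (not_le.2 h)
    · intro a ha ha2 u hu hub hk
      have tu : Tor n t u := tor_lam (mul_ne_zero ha hb) hu
      rw [← hV.eq, map_sub, (rx u tu).1, (rx T t1).1]
      refine odd_unit hv hb ha2 hg hT.t1 hT.t2 hu fun h => hk ?_
      rw [hV.ikS R1 hG]
      exact ⟨tu, h⟩
  · intro a ha ha2 ha15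
    have hG2 := g15_mul hG ha ha15
    obtain ⟨T, T', hT⟩ := ex_ord2 hb
    obtain ⟨-, -, R, hR, -⟩ := aL3 n t a b ha hb
    have hc := (cst_unit hv ha hb ha2 hg (hV.goodS R1 hQ hG2) hT hR).1
    have vT := ord2_val hv hb hg.toICd hT.t1 hT.t2
    set D := ∏ u ∈ R, (if u ∈ Lam b then 1 else
      xx b (wpC b (1 / 3)) (fr b ^ 2) u - xx b (wpC b (1 / 3)) (fr b ^ 2) T) with hD
    have hiO : V.valuation (io (rO b (a * b))) ^ 2 * V.valuation D = 1 := by
      rw [(rr _ hG2).1, ← map_pow, ← map_mul, div_pow]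
      exact hc
    have big : ∀ u ∈ R, u ∉ Lam b → Kr V.valuation (Lam b) (xx b (wpC b (1 / 3)) (fr b ^ 2)) u →
        1 < V.valuation (xx b (wpC b (1 / 3)) (fr b ^ 2) u - xx b (wpC b (1 / 3)) (fr b ^ 2) T) := by
      intro u _ hub hku
      have h5 : 1 < V.valuation (xx b (wpC b (1 / 3)) (fr b ^ 2) u) := hku.resolve_left hub
      rw [Valuation.map_sub_eq_of_lt_left _ (lt_of_le_of_lt vT h5)]
      exact h5
    have one : ∀ u ∈ R, u ∉ Lam b → ¬ Kr V.valuation (Lam b) (xx b (wpC b (1 / 3)) (fr b ^ 2)) u →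
        V.valuation (xx b (wpC b (1 / 3)) (fr b ^ 2) u - xx b (wpC b (1 / 3)) (fr b ^ 2) T) = 1 :=
      fun u hu hub hku => odd_unit hv hb ha2 hg hT.t1 hT.t2 (hR.mem u hu) hku
    have ge : ∀ u ∈ R, 1 ≤ V.valuation (if u ∈ Lam b then (1 : ℂ) else
        xx b (wpC b (1 / 3)) (fr b ^ 2) u - xx b (wpC b (1 / 3)) (fr b ^ 2) T) := by
      intro u hu
      by_cases hub : u ∈ Lam b
      · rw [if_pos hub, map_one]
      · rw [if_neg hub]
        by_cases hku : Kr V.valuation (Lam b) (xx b (wpC b (1 / 3)) (fr b ^ 2)) u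
        · exact (big u hu hub hku).le
        · exact (one u hu hub hku).ge
    have hD1 : 1 ≤ V.valuation D := by
      rw [hD, map_prod]
      exact Finset.one_le_prod' ge
    have hle : V.valuation (io (rO b (a * b))) ≤ 1 := by
      by_contra hcon
      have h5 := one_lt_mul_of_lt_of_le' (one_lt_pow' (not_le.1 hcon) two_ne_zero) hD1
      rw [hiO] at h5
      exact lt_irrefl _ h5
    refine ⟨(hV.le _).1 hle, ?_, ?_⟩
    · rintro ⟨u, hu, hub, hk⟩
      rw [hV.ikS R1 hG] at hk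
      obtain ⟨u₁, hu₁, h3⟩ := hR.ex u hu
      have hub₁ : u₁ ∉ Lam b := fun h => hub ((lam_sub_iff h3).2 h)
      have hk₁ := (hK.kr_congr h3).1 hk.2
      have hD2 : 1 < V.valuation D := by
        rw [hD, map_prod, ← Finset.mul_prod_erase R _ hu₁, if_neg hub₁]
        exact one_lt_mul_of_lt_of_le' (big u₁ hu₁ hub₁ hk₁)
          (Finset.one_le_prod' fun u hu' => ge u (Finset.mem_of_mem_erase hu'))
      rw [← hV.lt]
      by_contra hcon
      have h5 := one_lt_mul_of_lt_of_le' hD2 (one_le_pow_of_one_le' (not_lt.1 hcon) 2)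
      rw [mul_comm, hiO] at h5
      exact lt_irrefl _ h5
    · intro hn
      rw [← hV.eq]
      have hD2 : V.valuation D = 1 := by
        rw [hD, map_prod]
        refine Finset.prod_eq_one fun u hu => ?_
        by_cases hub : u ∈ Lam b
        · rw [if_pos hub, map_one]
        · rw [if_neg hub]
          refine one u hu hub fun hk => hn u (hR.mem u hu) hub ?_
          rw [hV.ikS R1 hG]
          exact ⟨tor_lam (mul_ne_zero ha hb) (hR.mem u hu), hk⟩
      rw [hD2, mul_one, ← map_pow] at hiO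
      exact uof_pow two_ne_zero hiO

end Pool.Agent.DS
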