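import Pool.Agent.Lib.DS.R.R3
import Pool.Agent.Lib.DS.R.GQ
import Pool.Agent.Lib.DS.D.PrC
import Pool.Agent.Lib.DS.D.AllK
import Pool.Agent.Lib.DS.E.XOm
import Pool.Agent.Lib.DN.E.AllB

/-!
# Theorem DS (all imaginary quadratic fields), parts R and D: assembly (helper58)

No hypotheses, except `S_D1` (the kernel of reduction) for `S_D3`, `S_D4`, `S_D5`, `S_D6`, `S_D9`.
-/

set_option autoImplicit false

noncomputable section

namespace Pool.Agent.DS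

open Pool.Agent.DN

theorem zRL : S_RL := sRL
theorem zR1 : S_R1 := sR1 zRL
theorem zR3 : S_R3 := sR3
theorem zGQ : S_GQ := sGQ zR1
theorem zXOm : S_XOm := sXOm aB1 aB2 aB3 aB5 aB7 zR1
theorem zLgK : S_LgK := sLgK
theorem zLgT : S_LgT := sLgT zR1
theorem zLeg : S_Leg := sLeg
theorem zPrC : S_PrC := sPrC zR1
theorem zLaU : S_LaU := sLaU zR1
theorem zD8 : S_D8 := kD8 zXOm zR1
theorem zD7 : S_D7 := kD7 zXOm zR1
theorem zD3 (h : S_D1) : S_D3 := kD3 zXOm zR1 h zPrC zLaU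
theorem zD4 (h : S_D1) : S_D4 := kD4 zXOm zR1 h zPrC zLaU
theorem zD5 (h : S_D1) : S_D5 := kD5 zXOm zGQ h zLgK zLgT
theorem zD6 (h : S_D1) : S_D6 := kD6 zXOm zR1 h zPrC zLaU
theorem zD9 (h : S_D1) : S_D9 := kD9 zXOm zR1 zGQ h

end Pool.Agent.DS
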