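import Pool.Agent.Lib.DS.D.Brg
import Pool.Agent.Lib.DN.R.KmD

/-!
# Theorem DS (all imaginary quadratic fields), part D: `S_D1`, all primes `Q` (helper46)
-/

set_option autoImplicit false

open scoped Pointwise nonZeroDivisors

noncomputable section

namespace Pool.Agent.DS

open Pool.Agent.MuZ Pool.Agent.FW Pool.Agent.DN NumberField IsDedekindDomain
open Pool.Agent.DI (io ofC io_inj exists_io io_ofC ofC_io VP MP UP TP ex)

theorem sD1 (R1 : S_R1) : S_D1 := by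
  intro n t _ Q hQ b hG
  obtain ⟨V, hV⟩ := exists_VQ hQ.1
  have hb := hG.ne
  haveI := hQ.1.1
  have hg := hV.goodS R1 hQ hG
  have hK := sVCrd n t _ V.valuation b _ _ hb hg.toICd
  have hmul : ∀ (v : OO n t) (z : ℂ), IK Q b z → IK Q b (toC v * z) := by
    intro v z hz
    rw [hV.ikS R1 hG] at hz ⊢
    exact ⟨tor_mul v hz.1, kr_mulG hb hg v hz.2⟩
  refine ⟨?_, ?_, hmul, ?_, ?_, ?_, ?_⟩
  · intro z z' hz hz'
    rw [hV.ikS R1 hG] at hz hz' ⊢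
    exact ⟨tor_add hz.1 hz'.1, hK.kr_add hz.2 hz'.2⟩
  · intro z hz
    exact ⟨tor_lam hb hz, Or.inl hz⟩
  · intro a z ha ha15 hz
    have hG' : G15 (a * b) := ⟨mul_ne_zero ha hG.ne, ((aO6 n t).1 15 a b).2 ⟨ha15, hG.cop⟩⟩
    rw [hV.ikS R1 hG] at hz
    rw [hV.ikS R1 hG']
    obtain ⟨N, hN, hNz⟩ := (tor_iff hb).1 hz.1
    exact ⟨hz.1, kr_upG ha hb hg (hV.goodS R1 hQ hG') hN hNz hz.2⟩
  · intro z hz α β hα hαβ
    have h1 := hmul β z hz
    rw [hV.ikS R1 hG] at h1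
    rw [toC_mul, mul_assoc] at hαβ
    exact kr_unitG hb hg (hV.tc hQ.1 hα) h1.2 hαβ
  · intro z z' hz hzn hz'
    have hz'1 := hz'
    rw [hV.ikS R1 hG] at hz'
    rw [hV.xsubS R1 hG (tor_add hz hz'.1) hz]
    refine hK.red (fun h => hzn ?_) hz'.2
    rw [hV.ikS R1 hG]
    exact ⟨hz, h⟩
  · intro z z' hz hz' hzn hzn' hm
    rw [hV.xsubS R1 hG hz hz'] at hm
    have n1 : ¬ Kr V.valuation (Lam b) (xx b (wpC b (1 / 3)) (fr b ^ 2)) z := fun h => hzn (by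
      rw [hV.ikS R1 hG]; exact ⟨hz, h⟩)
    have n2 : ¬ Kr V.valuation (Lam b) (xx b (wpC b (1 / 3)) (fr b ^ 2)) z' := fun h => hzn' (by
      rw [hV.ikS R1 hG]; exact ⟨hz', h⟩)
    rw [hV.ikS R1 hG, hV.ikS R1 hG]
    rcases hK.sep hg.ds n1 n2 hm with h | h
    · exact Or.inl ⟨tor_add hz hz', h⟩
    · exact Or.inr ⟨tor_sub hz hz', h⟩

end Pool.Agent.DS
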