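import Pool.Agent.Lib.DS.D.AllD
import Pool.Agent.Lib.DS.D.D1G

/-!
# Theorem DS (all imaginary quadratic fields), parts R and D: complete, no hypotheses (helper46)
-/

set_option autoImplicit false

noncomputable section

namespace Pool.Agent.DS

open Pool.Agent.DN

theorem zD1 : S_D1 := sD1 zR1
theorem yD3 : S_D3 := zD3 zD1
theorem yD4 : S_D4 := zD4 zD1
theorem yD5 : S_D5 := zD5 zD1
theorem yD6 : S_D6 := zD6 zD1
theorem yD9 : S_D9 := zD9 zD1

end Pool.Agent.DS
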