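import Pool.Agent.Lib.DS.R.R1

/-!
# Theorem DS (all imaginary quadratic fields), part D: from the valuations of `ℂ` to the primes `Q` (port of `DN/D/Brg.lean`)
-/

set_option autoImplicit false

open scoped Pointwise nonZeroDivisors

noncomputable section

namespace Pool.Agent.DS

open Pool.Agent.MuZ Pool.Agent.FW Pool.Agent.DN NumberField IsDedekindDomain
open Pool.Agent.DI (io ofC io_inj exists_io io_ofC ofC_io VP MP UP TP ex)

section

variable {n t : ℕ} {Q : Ideal ZZ} {V : ValuationSubring ℂ}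

/-- Good reduction at the primes with `GQ`. -/
theorem _root_.Pool.Agent.DN.VQ.goodS [SqN n t] (R1 : S_R1) (h : VQ Q V) (hQ : GQ n t Q) {b : Ideal (OO n t)} (hG : G15 b) :
    GCd V.valuation b (wpC b (1 / 3)) (fr b ^ 2) := by
  obtain ⟨g1, g3, gd⟩ := hQ.2 b hG
  obtain ⟨r1, r3, -, -⟩ := (R1.1 n t).1 b hG
  refine GCd_XC hG ?_ ?_ ?_
  · rw [← r1]; exact (h.le _).2 g1
  · rw [← r3]; exact (h.eq _).2 g3
  · have := (h.eq _).2 gd
    rwa [map_sub, map_mul, map_pow, map_ofNat, r1, r3] at this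

theorem io_xO [SqN n t] (R1 : S_R1) {b : Ideal (OO n t)} (hG : G15 b) {z : ℂ} (hz : Tor n t z) :
    io (xO b z) = xx b (wpC b (1 / 3)) (fr b ^ 2) z := (((R1.1 n t).1 b hG).2.2.1 z hz).1

theorem _root_.Pool.Agent.DN.VQ.ikS [SqN n t] (R1 : S_R1) (h : VQ Q V) {b : Ideal (OO n t)} (hG : G15 b) {z : ℂ} :
    IK Q b z ↔ Tor n t z ∧ Kr V.valuation (Lam b) (xx b (wpC b (1 / 3)) (fr b ^ 2)) z := by
  unfold IK Kr
  constructor
  · rintro ⟨h1, h2⟩
    refine ⟨h1, h2.imp_right fun h3 => ?_⟩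
    rw [← io_xO R1 hG h1]
    exact (h.gt _).2 h3
  · rintro ⟨h1, h2⟩
    refine ⟨h1, h2.imp_right fun h3 => ?_⟩
    rw [← io_xO R1 hG h1] at h3
    exact (h.gt _).1 h3

/-- Differences of values of `X`. -/
theorem _root_.Pool.Agent.DN.VQ.xsubS [SqN n t] (R1 : S_R1) (h : VQ Q V) {b : Ideal (OO n t)} (hG : G15 b) {z z' : ℂ}
    (hz : Tor n t z) (hz' : Tor n t z') : MP Q (xO b z - xO b z') ↔
      V.valuation (xx b (wpC b (1 / 3)) (fr b ^ 2) z - xx b (wpC b (1 / 3)) (fr b ^ 2) z') < 1 := by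
  rw [← io_xO R1 hG hz, ← io_xO R1 hG hz', ← map_sub, h.lt]

end


end Pool.Agent.DS
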