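import Pool.Agent.Lib.DS.D.SpecK
import Pool.Agent.Lib.DN.O.All

/-!
# Theorem DS (all imaginary quadratic fields), part D: the quotient of the framings for a principal ideal
-/

set_option autoImplicit false

open scoped Pointwise nonZeroDivisors

noncomputable section

namespace Pool.Agent.DS

open Pool.Agent.MuZ Pool.Agent.FW Pool.Agent.DN NumberField IsDedekindDomain
open Pool.Agent.DI (io ofC io_inj exists_io io_ofC ofC_io VP MP UP TP ex)

variable {n t : ℕ}

private theorem RoL_dvd {α : OO n t} (hα : Cop α 15) {p : ℕ} (hp : p ∣ 15) (h1 : 1 < p)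
    (h : (p : OO n t) ∣ α) : False := by
  have h2 : (p : ℤ) ∣ Nm α := by
    have h3 := Nm_dvd h
    rw [Nm_nat] at h3
    exact (dvd_pow_self (p : ℤ) two_ne_zero).trans h3
  have h4 : (p : ℤ) ∣ ((15 : ℕ) : ℤ) := by exact_mod_cast hp
  have h5 := IsCoprime.isUnit_of_dvd' hα h2 h4
  rw [Int.isUnit_iff] at h5
  omega

theorem sRoL (hX : S_XOm) (hD1 : S_D1) : S_RoL := by
  intro n t _ Q hQ h3 h5 α b hα hc hb
  have hP : Q.IsPrime := hQ.1.1
  have hg : G15 (sp α * b) :=
    g15_mul' (Eb.ne_sp hα) (((aO6 n t).2.2.2.1 15 α (by norm_num)).2 hc) hb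
  have hx := hX n t b hb
  have hx' := hX n t (sp α * b) hg
  have hαL : toC α ∈ Lam b := fun v _ => ⟨v * α, (toC_mul v α).symm⟩
  have t5 : Tor n t (1 / 5) := by
    have := tor_nat_div (n := n) (t := t) (N := 5) (by norm_num)
    push_cast at this
    exact this
  have t3 : Tor n t (1 / 3) := by
    have := tor_nat_div (n := n) (t := t) (N := 3) (by norm_num)
    push_cast at this
    exact this
  have key := hx.hmg α hα hc (1 / 5) t5
  rw [hx'.x5] at key
  have tz : Tor n t (toC α * (1 / 5)) := tor_mul α t5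
  have tz' : Tor n t (toC α * (1 / 3)) := tor_mul α t3
  have nz : toC α * (1 / 5) ∉ Lam b := by
    intro h
    have h1 : toC α / ((5 : ℕ) : ℂ) ∈ Lam b := by
      have e : toC α / ((5 : ℕ) : ℂ) = toC α * (1 / 5) := by
        push_cast
        ring
      rw [e]
      exact h
    exact RoL_dvd hc (p := 5) (by norm_num) (by norm_num)
      ((div_lam_iff (by norm_num) (Eb.pri_dvd hb.cop (by norm_num)) α).1 h1)
  have nz' : toC α * (1 / 3) ∉ Lam b := by
    intro h
    have h1 : toC α / ((3 : ℕ) : ℂ) ∈ Lam b := by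
      have e : toC α / ((3 : ℕ) : ℂ) = toC α * (1 / 3) := by
        push_cast
        ring
      rw [e]
      exact h
    exact RoL_dvd hc (p := 3) (by norm_num) (by norm_num)
      ((div_lam_iff (by norm_num) (Eb.pri_dvd hb.cop (by norm_num)) α).1 h1)
  have n35 : toC α * (3 / 5) ∉ Lam b := by
    intro h
    apply nz
    have h1 := lam_sub (lam_nat 2 h) hαL
    have e : ((2 : ℕ) : ℂ) * (toC α * (3 / 5)) - toC α = toC α * (1 / 5) := by
      push_cast
      ring
    rwa [e] at h1
  have ns : toC α * (1 / 5) + toC α * (1 / 3) ∉ Lam b := by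
    intro h
    apply n35
    have h1 := lam_sub (lam_nat 3 h) hαL
    have e : ((3 : ℕ) : ℂ) * (toC α * (1 / 5) + toC α * (1 / 3)) - toC α = toC α * (3 / 5) := by
      push_cast
      ring
    rwa [e] at h1
  have nd : toC α * (1 / 5) - toC α * (1 / 3) ∉ Lam b := by
    intro h
    apply n35
    have h1 := lam_add (lam_nat 3 h) hαL
    have e : ((3 : ℕ) : ℂ) * (toC α * (1 / 5) - toC α * (1 / 3)) + toC α = toC α * (3 / 5) := by
      push_cast
      ring
    rwa [e] at h1
  have m5 : ¬ MP Q ((5 : ℕ) : Om) := by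
    rw [Nat.cast_ofNat]
    exact h5
  have m3 : ¬ MP Q ((3 : ℕ) : Om) := by
    rw [Nat.cast_ofNat]
    exact h3
  have m15 : ¬ MP Q ((15 : ℕ) : Om) := by
    intro h
    have e : ((15 : ℕ) : Om) = ((3 : ℕ) : Om) * ((5 : ℕ) : Om) := by
      push_cast
      norm_num
    rw [e] at h
    rcases DI.MP.mul_cases (DI.VP.nat 3) (DI.VP.nat 5) h with h | h
    · exact m3 h
    · exact m5 h
  have iz := IK.not_of_nat hD1 hQ hb m5 (z := toC α * (1 / 5)) (by
    have e : ((5 : ℕ) : ℂ) * (toC α * (1 / 5)) = toC α := by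
      push_cast
      ring
    rw [e]
    exact hαL) nz
  have iz' := IK.not_of_nat hD1 hQ hb m3 (z := toC α * (1 / 3)) (by
    have e : ((3 : ℕ) : ℂ) * (toC α * (1 / 3)) = toC α := by
      push_cast
      ring
    rw [e]
    exact hαL) nz'
  have is := IK.not_of_nat hD1 hQ hb m15 (z := toC α * (1 / 5) + toC α * (1 / 3)) (by
    have e : ((15 : ℕ) : ℂ) * (toC α * (1 / 5) + toC α * (1 / 3)) = ((8 : ℕ) : ℂ) * toC α := by
      push_cast
      ring
    rw [e]
    exact lam_nat 8 hαL) ns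
  have id := IK.not_of_nat hD1 hQ hb m15 (z := toC α * (1 / 5) - toC α * (1 / 3)) (by
    have e : ((15 : ℕ) : ℂ) * (toC α * (1 / 5) - toC α * (1 / 3)) = -(((2 : ℕ) : ℂ) * toC α) := by
      push_cast
      ring
    rw [e]
    exact lam_neg (lam_nat 2 hαL)) nd
  have hU := IK.sep hD1 hQ hb tz tz' iz iz' is id
  have hA : UP Q (a3O (sp α * b)) := (hQ.2 (sp α * b) hg).2.1
  have hα0 : toO α ≠ 0 := toO_ne hα
  have hA0 : a3O (sp α * b) ≠ 0 := hA.ne_zero
  refine DI.UP.of_pow (n := 2) two_pos ?_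
  have e : (rO b (sp α * b) / toO α) ^ 2 =
      (xO b (toC α * (1 / 5)) - xO b (toC α * (1 / 3))) / a3O (sp α * b) := by
    rw [div_pow, div_eq_div_iff (pow_ne_zero 2 hα0) hA0]
    linear_combination key
  rw [e]
  exact hU.div hA

end Pool.Agent.DS
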