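import Pool.Agent.Lib.DS.D.ThU
import Pool.Agent.Lib.DN.O.All

/-!
# Theorem DS (all imaginary quadratic fields), part D: the factors of Theta at the primes not above `2` (module `ThL`; author helper9)
-/

set_option autoImplicit false

open scoped Pointwise nonZeroDivisors

noncomputable section

namespace Pool.Agent.DS

open Pool.Agent.MuZ Pool.Agent.FW Pool.Agent.DN NumberField IsDedekindDomain
open Pool.Agent.DI (io ofC io_inj exists_io io_ofC ofC_io VP MP UP TP ex)

variable {n t : ℕ}

private theorem ThL_alg {lz lu la a : Om} (ha : a ≠ 0) (hlu : lu = a⁻¹) (h : lz - lu ≠ 0) :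
    4 * lu * (lu - 1) * (lu - la) * ((lz - lu) ^ 3)⁻¹ =
      4 * (1 - a) * (1 - la * a) * ((lz * a - 1) ^ 3)⁻¹ := by
  have h1 : lz * a - 1 ≠ 0 := by
    intro h2
    apply h
    rw [hlu]
    field_simp
    linear_combination h2
  rw [hlu] at h ⊢
  have e : lz - a⁻¹ = (lz * a - 1) * a⁻¹ := by field_simp
  rw [e, mul_pow, mul_inv, inv_pow]
  field_simp

/-- **The factors of Theta at the primes not above `2`.** -/
theorem sThL (hLgK : S_LgK) (hLgT : S_LgT) : S_ThL := by
  intro n t _ m b hm hb hm2 Q hQ hQ2 z hz hzu u hu hub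
  have hP : Q.IsPrime := hQ.1
  obtain ⟨T, T', hT⟩ := exists_ord2 (n := n) (t := t) aL3 hb.ne
  obtain ⟨-, ⟨hl1, hl2, hl3, hl4⟩, ⟨hadd, hneg, hlam, hmul⟩, -, hqp, -, hsep, -, -, -⟩ :=
    hLgK n t Q hQ hQ2 b hb.ne T T' hT
  have htT := hT.tor hb.ne
  have hTu : Tor n t u := tor_lam (Eb.ne_mul hm hb.ne) hu
  have hI : ∀ w ∈ Lam (m * b), ¬ IL Q b T T' (z + w) := fun w hw h => hzu w hw (hqp _ h)
  have hI0 : ¬ IL Q b T T' z := by
    have h := hI 0 (lam_zero _)
    rwa [add_zero] at h
  have hvp : ∀ y : ℂ, Tor n t y → ¬ IL Q b T T' y → VP Q (leO b T T' y) := by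
    intro y hy hy'
    by_contra h
    exact hy' ⟨hy, Or.inr h⟩
  have hzb : z ∉ Lam b := fun h => hI0 (hlam z h)
  have hVz := hvp z hz hI0
  have hU2 : UP Q (2 : Om) := ⟨by exact_mod_cast DI.VP.nat (P := Q) 2, hQ2⟩
  have hU4 : UP Q (4 : Om) := by
    have e : (4 : Om) = 2 * 2 := by norm_num
    rw [e]
    exact hU2.mul hU2
  unfold qO
  rw [hLgT n t b hb T T' hT z u hz hTu hzb hub]
  by_cases hIu : IL Q b T T' u
  · -- the point `u` is in the kernel
    obtain ⟨h0, h1⟩ := DI.VP.not_iff.1 (hIu.2.resolve_left hub)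
    have hne : leO b T T' z - leO b T T' u ≠ 0 := by
      intro h
      rw [sub_eq_zero] at h
      rw [h] at hVz
      exact hIu.2.resolve_left hub hVz
    rw [ThL_alg (inv_ne_zero h0) (inv_inv _).symm hne]
    have g1 : UP Q (1 - (leO b T T' u)⁻¹) := by
      refine DI.UP.congr DI.UP.one ?_
      have e : 1 - (leO b T T' u)⁻¹ - 1 = -(leO b T T' u)⁻¹ := by ring
      rw [e]
      exact h1.neg
    have g2 : UP Q (1 - leO b T T' (T + T') * (leO b T T' u)⁻¹) := by
      refine DI.UP.congr DI.UP.one ?_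
      have e : 1 - leO b T T' (T + T') * (leO b T T' u)⁻¹ - 1 =
          -(leO b T T' (T + T') * (leO b T T' u)⁻¹) := by ring
      rw [e]
      exact (DI.MP.mul_left hl3.1 h1).neg
    have g3 : UP Q (leO b T T' z * (leO b T T' u)⁻¹ - 1) := by
      refine DI.UP.congr DI.UP.one.neg ?_
      have e : leO b T T' z * (leO b T T' u)⁻¹ - 1 - -1 = leO b T T' z * (leO b T T' u)⁻¹ := by ring
      rw [e]
      exact DI.MP.mul_left hVz h1
    exact ((hU4.mul g1).mul g2).mul (g3.pow 3).inv
  · -- the point `u` is not in the kernel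
    have hVu := hvp u hTu hIu
    -- points of order two
    have hS : ∀ S : ℂ, Tor n t S → 2 * S ∈ Lam b → S ∉ Lam b → VP Q (leO b T T' S) →
        UP Q (leO b T T' u - leO b T T' S) := by
      intro S hTS h2S hSb hVS
      refine ⟨hVu.sub hVS, fun h => hIu ?_⟩
      have hIS : ¬ IL Q b T T' S := by
        rintro ⟨-, h1 | h1⟩
        · exact hSb h1
        · exact h1 hVS
      have h2 : IL Q b T T' (2 * u) := by
        rcases hsep u S hTu hTS hIu hIS h with h1 | h1
        · have h3 := hmul (2 : OO n t) _ h1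
          have h4 := hadd _ _ h3 (hlam _ (lam_neg h2S))
          rw [toC_two] at h4
          have e : 2 * (u + S) + -(2 * S) = 2 * u := by ring
          rwa [e] at h4
        · have h3 := hmul (2 : OO n t) _ h1
          have h4 := hadd _ _ h3 (hlam _ h2S)
          rw [toC_two] at h4
          have e : 2 * (u - S) + 2 * S = 2 * u := by ring
          rwa [e] at h4
      obtain ⟨v, hv, w, e⟩ := pri_split hm2
      have h5 : IL Q b T T' (toC v * u) := hlam _ (lam_prod.1 hu v hv)
      have h6 := hadd _ _ h5 (hmul w _ h2)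
      have h4 := congrArg toC e
      rw [toC_add, toC_mul, toC_nat, toC_one] at h4
      push_cast at h4
      have e5 : toC v * u + toC w * (2 * u) = u := by linear_combination u * h4
      rwa [e5] at h6
    have g1 := hS T htT.1 hT.t1 hT.t2 (by rw [hl1]; exact DI.VP.zero)
    have g2 := hS T' htT.2.1 hT.t3 hT.t4 (by rw [hl2]; exact DI.VP.one)
    have g3 := hS (T + T') htT.2.2 hT.s1 hT.s2 hl3.1
    rw [hl1, sub_zero] at g1
    rw [hl2] at g2
    have g4 : UP Q (leO b T T' z - leO b T T' u) := by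
      refine ⟨hVz.sub hVu, fun h => ?_⟩
      rcases hsep z u hz hTu hI0 hIu h with h1 | h1
      · exact hI u hu h1
      · rw [sub_eq_add_neg] at h1
        exact hI (-u) (lam_neg hu) h1
    exact (((hU4.mul g1).mul g2).mul g3).mul (g4.pow 3).inv

end Pool.Agent.DS
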